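import Pool.Agent.Lib.MP_c1a8e2_al.h30.Gf

/-!
# Counting, second part
-/

set_option autoImplicit false

open Finset

namespace Pool.Agent.Lib.MP_c1a8e2_al

/-- the size of a partition -/
def wL {k m : ℕ} (l : Box k m) : ℕ := ∑ i, l.1 i

theorem FF_of_finite {ι : Type} [Finite ι] (w : ι → ℕ) : FF w := fun _ => inferInstance

theorem GF_split {ι : Type} (w : ι → ℕ) (p : ι → Prop) (h : FF w) :
    GF w = GF (fun x : {x // p x} => w x.1) + GF (fun x : {x // ¬ p x} => w x.1) := by
  classical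
  have h1 : FF (fun x : {x // p x} => w x.1) := fun d => by
    have := h d
    exact Finite.of_injective (β := {x : ι // w x = d}) (fun x => ⟨x.1.1, x.2⟩)
      (fun a b hab => by
        apply Subtype.ext
        apply Subtype.ext
        simpa using hab)
  have h2 : FF (fun x : {x // ¬ p x} => w x.1) := fun d => by
    have := h d
    exact Finite.of_injective (β := {x : ι // w x = d}) (fun x => ⟨x.1.1, x.2⟩)
      (fun a b hab => by
        apply Subtype.ext
        apply Subtype.ext
        simpa using hab)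
  rw [← GF_sum _ _ h1 h2]
  symm
  refine GF_equiv _ _ (Equiv.sumCompl p) ?_
  rintro (x | x) <;> rfl

/-- partitions with first part `m + 1` / with last part zero -/
def eqTop (k m : ℕ) : {l : Box (k + 1) (m + 1) // l.1 0 = m + 1} ≃
    {l : Box (k + 1) (m + 1) // l.1 (Fin.last k) = 0} where
  toFun l := ⟨⟨Fin.snoc (Fin.tail l.1.1) 0, by
      refine ⟨?_, ?_⟩
      · rw [antitone_iff_forall_lt]
        intro a b hab
        rcases Fin.eq_castSucc_or_eq_last b with ⟨b, rfl⟩ | rfl
        · have ha : a ≠ Fin.last k := by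
            intro h
            rw [h] at hab
            exact absurd (Fin.le_last (Fin.castSucc b)) (not_le.mpr hab)
          obtain ⟨a, rfl⟩ := Fin.exists_castSucc_eq.mpr ha
          rw [Fin.snoc_castSucc, Fin.snoc_castSucc]
          apply l.1.2.1
          rw [Fin.succ_le_succ_iff]
          exact Fin.castSucc_lt_castSucc_iff.mp hab |>.le
        · rw [Fin.snoc_last]
          exact Nat.zero_le _
      · intro i
        rcases Fin.eq_castSucc_or_eq_last i with ⟨i, rfl⟩ | rfl
        · rw [Fin.snoc_castSucc]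
          exact l.1.2.2 _
        · rw [Fin.snoc_last]
          exact Nat.zero_le _⟩, by
      show (Fin.snoc (Fin.tail l.1.1) 0 : Fin (k + 1) → ℕ) (Fin.last k) = 0
      exact Fin.snoc_last _ _⟩
  invFun l := ⟨⟨Fin.cons (m + 1) (Fin.init l.1.1), by
      refine ⟨?_, ?_⟩
      · rw [antitone_iff_forall_lt]
        intro a b hab
        rcases Fin.eq_zero_or_eq_succ b with rfl | ⟨b, rfl⟩
        · exact absurd hab (Fin.not_lt_zero a)
        · rcases Fin.eq_zero_or_eq_succ a with rfl | ⟨a, rfl⟩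
          · rw [Fin.cons_zero, Fin.cons_succ]
            exact l.1.2.2 _
          · rw [Fin.cons_succ, Fin.cons_succ]
            apply l.1.2.1
            rw [Fin.castSucc_le_castSucc_iff]
            exact (Fin.succ_lt_succ_iff.mp hab).le
      · intro i
        rcases Fin.eq_zero_or_eq_succ i with rfl | ⟨i, rfl⟩
        · rw [Fin.cons_zero]
        · rw [Fin.cons_succ]
          exact l.1.2.2 _⟩, rfl⟩
  left_inv l := by
    apply Subtype.ext
    apply Subtype.ext
    show Fin.cons (m + 1) (Fin.init (Fin.snoc (Fin.tail l.1.1) 0 : Fin (k + 1) → ℕ)) = l.1.1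
    have h := l.2
    rw [Fin.init_snoc]
    conv_rhs => rw [← Fin.cons_self_tail l.1.1]
    rw [h]
  right_inv l := by
    apply Subtype.ext
    apply Subtype.ext
    show Fin.snoc (Fin.tail (Fin.cons (m + 1) (Fin.init l.1.1) : Fin (k + 1) → ℕ)) 0 = l.1.1
    rw [Fin.tail_cons]
    have h := l.2
    conv_rhs => rw [← Fin.snoc_init_self l.1.1]
    rw [h]

/-- partitions with first part at most `m` -/
def eqBelow (k m : ℕ) : {l : Box (k + 1) (m + 1) // ¬ l.1 0 = m + 1} ≃ Box (k + 1) m where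
  toFun l := ⟨l.1.1, l.1.2.1, fun i => by
    have h1 := l.1.2.1 (Fin.zero_le i)
    have h2 := l.1.2.2 0
    have h3 := l.2
    omega⟩
  invFun l := ⟨⟨l.1, l.2.1, fun i => (l.2.2 i).trans (Nat.le_succ m)⟩, fun h => by
    have h1 := l.2.2 0
    have h2 : l.1 0 = m + 1 := h
    omega⟩
  left_inv l := rfl
  right_inv l := rfl

/-- partitions with positive last part -/
def eqPos (k m : ℕ) : {l : Box (k + 1) (m + 1) // ¬ l.1 (Fin.last k) = 0} ≃ Box (k + 1) m where
  toFun l := ⟨fun i => l.1.1 i - 1, fun a b hab => Nat.sub_le_sub_right (l.1.2.1 hab) 1,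
    fun i => by
      have := l.1.2.2 i
      show l.1.1 i - 1 ≤ m
      omega⟩
  invFun l := ⟨⟨fun i => l.1 i + 1, fun a b hab => Nat.succ_le_succ (l.2.1 hab),
    fun i => Nat.succ_le_succ (l.2.2 i)⟩, fun h => Nat.succ_ne_zero _ h⟩
  left_inv l := by
    apply Subtype.ext
    apply Subtype.ext
    funext i
    show l.1.1 i - 1 + 1 = l.1.1 i
    have h1 := l.1.2.1 (Fin.le_last i)
    have h2 := l.2
    omega
  right_inv l := rfl

/-- generating function of `P_{k,m}` -/
noncomputable def GBx (k m : ℕ) : PowerSeries ℤ := GF (wL (k := k) (m := m))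

theorem GBx_rec (k m : ℕ) :
    GBx (k + 1) m * (1 - PowerSeries.X ^ (m + 1 + (k + 1))) =
      GBx (k + 1) (m + 1) * (1 - PowerSeries.X ^ (m + 1)) := by
  set E : PowerSeries ℤ := GF (fun x : {l : Box (k + 1) (m + 1) // l.1 (Fin.last k) = 0} =>
    wL x.1) with hE
  have h1 : GBx (k + 1) (m + 1) = PowerSeries.X ^ (m + 1) * E + GBx (k + 1) m := by
    unfold GBx
    rw [GF_split _ (fun l : Box (k + 1) (m + 1) => l.1 0 = m + 1) (FF_of_finite _)]
    congr 1
    · rw [hE, ← GF_shift]
      refine GF_equiv _ _ (eqTop k m) ?_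
      intro l
      show wL ((eqTop k m) l).1 + (m + 1) = wL l.1
      unfold wL
      have h2 : ∑ i, ((eqTop k m) l).1.1 i = ∑ i, (Fin.tail l.1.1) i := by
        show ∑ i, (Fin.snoc (Fin.tail l.1.1) 0 : Fin (k + 1) → ℕ) i = _
        rw [Fin.sum_univ_castSucc]
        simp only [Fin.snoc_castSucc, Fin.snoc_last, add_zero]
      rw [h2, Fin.sum_univ_succ (fun i => l.1.1 i), l.2, add_comm]
      rfl
    · exact GF_equiv _ _ (eqBelow k m) (fun l => rfl)
  have h3 : GBx (k + 1) (m + 1) = E + PowerSeries.X ^ (k + 1) * GBx (k + 1) m := by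
    unfold GBx
    rw [GF_split _ (fun l : Box (k + 1) (m + 1) => l.1 (Fin.last k) = 0) (FF_of_finite _)]
    congr 1
    rw [← GF_shift]
    refine GF_equiv _ _ (eqPos k m) ?_
    intro l
    show wL ((eqPos k m) l) + (k + 1) = wL l.1
    unfold wL
    have h4 : ∀ i, l.1.1 i = ((eqPos k m) l).1 i + 1 := by
      intro i
      show l.1.1 i = l.1.1 i - 1 + 1
      have h1 := l.1.2.1 (Fin.le_last i)
      have h2 := l.2
      omega
    rw [Finset.sum_congr rfl (fun i _ => h4 i), Finset.sum_add_distrib]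
    simp
  rw [pow_add]
  linear_combination (-1 : PowerSeries ℤ) * h1 + PowerSeries.X ^ (m + 1) * h3

theorem one_sub_X_pow_ne (c : ℕ) (hc : 1 ≤ c) : (1 - PowerSeries.X ^ c : PowerSeries ℤ) ≠ 0 := by
  intro h
  have h1 := congrArg (PowerSeries.coeff 0) h
  rw [map_sub, PowerSeries.coeff_zero_one, PowerSeries.coeff_X_pow, if_neg (by omega)] at h1
  simp at h1

theorem GBx_mul_succ (k m : ℕ) :
    GBx (k + 1) m * GF (wB (k := k + 1) m) = GBx (k + 1) (m + 1) * GF (wB (k := k + 1) (m + 1)) := by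
  have h1 := GBx_rec k m
  have h2 := GF_wB_cons k m
  have h3 := GF_wB_snoc k m
  apply mul_right_cancel₀ (one_sub_X_pow_ne (m + 1) (by omega))
  calc GBx (k + 1) m * GF (wB (k := k + 1) m) * (1 - PowerSeries.X ^ (m + 1))
      = GBx (k + 1) m * (GF (wB (k := k + 1) m) * (1 - PowerSeries.X ^ (m + 1))) := by ring
    _ = GBx (k + 1) m * (GF (wB (k := k + 1) (m + 1)) *
          (1 - PowerSeries.X ^ (m + 1 + (k + 1)))) := by rw [h2, h3]
    _ = (GBx (k + 1) m * (1 - PowerSeries.X ^ (m + 1 + (k + 1)))) *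
          GF (wB (k := k + 1) (m + 1)) := by ring
    _ = _ := by rw [h1]; ring

theorem GBx_mul_add (k m t : ℕ) :
    GBx (k + 1) m * GF (wB (k := k + 1) m) =
      GBx (k + 1) (m + t) * GF (wB (k := k + 1) (m + t)) := by
  induction t with
  | zero => rfl
  | succ t ih => rw [ih, GBx_mul_succ, ← add_assoc]

/-- The index set of the basis: a partition in the box and a multiplicity vector. -/
abbrev XX (k m : ℕ) : Type := Box k m × (Fin k → ℕ)

/-- the total size -/
def wX {k m : ℕ} (x : XX k m) : ℕ := wL x.1 + wB m x.2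

/-- partitions with at most `k` parts -/
abbrev YY' (k : ℕ) : Type := {b : Fin k → ℕ // Antitone b}

/-- the size -/
def wY {k : ℕ} (y : YY' k) : ℕ := ∑ i, y.1 i

theorem FF_wX (k m : ℕ) : FF (wX (k := k) (m := m)) :=
  FF_prod _ _ (FF_of_finite _) (FF_wB k m)

/-- for large `M` the fibres agree -/
def fibLarge (k M D : ℕ) (h : D ≤ M) :
    {x : XX k M // wX x = D} ≃ {y : YY' k // wY y = D} where
  toFun x := ⟨⟨x.1.1.1, x.1.1.2.1⟩, by
    have h1 := x.2
    unfold wX at h1
    have h2 : wB M x.1.2 = 0 := by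
      by_contra hne
      obtain ⟨i, hi, hi'⟩ := Finset.exists_ne_zero_of_sum_ne_zero
        (show ∑ i, (M + 1 + i) * x.1.2 i ≠ 0 from hne)
      have h3 : (M + 1 + (i : ℕ)) * x.1.2 i ≤ wB M x.1.2 :=
        Finset.single_le_sum (f := fun i : Fin k => (M + 1 + (i : ℕ)) * x.1.2 i)
          (fun _ _ => Nat.zero_le _) hi
      have h4 : 1 ≤ x.1.2 i := Nat.one_le_iff_ne_zero.mpr (right_ne_zero_of_mul hi')
      have h5 : M + 1 + (i : ℕ) ≤ (M + 1 + (i : ℕ)) * x.1.2 i := Nat.le_mul_of_pos_right _ h4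
      omega
    rw [h2, add_zero] at h1
    exact h1⟩
  invFun y := ⟨(⟨y.1.1, y.1.2, fun i => by
      have h1 : y.1.1 i ≤ wY y.1 := Finset.single_le_sum (f := fun i => y.1.1 i)
        (fun _ _ => Nat.zero_le _) (Finset.mem_univ i)
      have h2 := y.2
      omega⟩, fun _ => 0), by
    unfold wX wB
    simp only [mul_zero, Finset.sum_const_zero, add_zero]
    exact y.2⟩
  left_inv x := by
    apply Subtype.ext
    apply Prod.ext
    · rfl
    · show (fun _ => 0) = x.1.2
      have h1 := x.2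
      unfold wX at h1
      funext i
      by_contra hne
      have h3 : (M + 1 + (i : ℕ)) * x.1.2 i ≤ wB M x.1.2 :=
        Finset.single_le_sum (f := fun i : Fin k => (M + 1 + (i : ℕ)) * x.1.2 i)
          (fun _ _ => Nat.zero_le _) (Finset.mem_univ i)
      have h4 : 1 ≤ x.1.2 i := Nat.one_le_iff_ne_zero.mpr (fun h => hne h.symm)
      have h5 : M + 1 + (i : ℕ) ≤ (M + 1 + (i : ℕ)) * x.1.2 i := Nat.le_mul_of_pos_right _ h4
      omega
  right_inv y := rfl

theorem card_fib (k m D : ℕ) :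
    Nat.card {x : XX (k + 1) m // wX x = D} = Nat.card {y : YY' (k + 1) // wY y = D} := by
  have h1 : ∀ M : ℕ, (Nat.card {x : XX (k + 1) M // wX x = D} : ℤ) =
      PowerSeries.coeff D (GBx (k + 1) M * GF (wB (k := k + 1) M)) := by
    intro M
    rw [GBx, ← GF_prod _ _ (FF_of_finite _) (FF_wB (k + 1) M), coeff_GF]
    rfl
  have h2 := h1 m
  rw [GBx_mul_add k m D, ← h1 (m + D), Nat.card_congr (fibLarge (k + 1) (m + D) D (by omega))] at h2
  exact_mod_cast h2

/-- a weight preserving bijection -/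
theorem exists_equiv (k m : ℕ) (hk : 1 ≤ k) : ∃ e : XX k m ≃ YY' k, ∀ x, wY (e x) = wX x := by
  obtain ⟨k, rfl⟩ : ∃ k', k = k' + 1 := ⟨k - 1, by omega⟩
  have h1 : ∀ D, Nonempty ({x : XX (k + 1) m // wX x = D} ≃ {y : YY' (k + 1) // wY y = D}) := by
    intro D
    have hf := FF_wX (k + 1) m D
    have hf' : Finite {y : YY' (k + 1) // wY y = D} := by
      have := FF_wX (k + 1) (m + D) D
      exact Finite.of_equiv _ (fibLarge (k + 1) (m + D) D (by omega))
    exact (Finite.card_eq (α := {x : XX (k + 1) m // wX x = D})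
      (β := {y : YY' (k + 1) // wY y = D})).mp (card_fib k m D)
  have e := fun D => (h1 D).some
  refine ⟨(Equiv.sigmaFiberEquiv (wX (k := k + 1) (m := m))).symm.trans
    ((Equiv.sigmaCongrRight e).trans (Equiv.sigmaFiberEquiv (wY (k := k + 1)))), fun x => ?_⟩
  exact ((e (wX x)) ⟨x, rfl⟩).2

end Pool.Agent.Lib.MP_c1a8e2_al
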