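import Pool.Agent.Lib.MP_c1a8e2_al.h30.Decomp
import Pool.Agent.Lib.MP_c1a8e2_al.h30.Count

/-!
# The reduction to the nonsingularity of a matrix
-/

set_option autoImplicit false

open MvPolynomial Finset

namespace Pool.Agent.Lib.MP_c1a8e2_al

variable {k m : ℕ} {R : Type*} [CommRing R]

/-- the perturbed generators -/
noncomputable def qq (m : ℕ) (a : Fin k → MvPolynomial (Fin k) R) (i : Fin k) :
    MvPolynomial (Fin k) R := psum (Fin k) R (m + 1 + i) - a i

/-- the family -/
noncomputable def FX (m : ℕ) (a : Fin k → MvPolynomial (Fin k) R) (x : XX k m) :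
    MvPolynomial (Fin k) R := hConj k m R x.1.1 * ∏ i, qq m a i ^ x.2 i

theorem FX_zero (a : Fin k → MvPolynomial (Fin k) R) (l : Box k m) :
    FX m a (l, 0) = hConj k m R l.1 := by
  unfold FX
  simp

theorem FX_mul (a : Fin k → MvPolynomial (Fin k) R) (x : XX k m) (i : Fin k) :
    FX m a x * qq m a i = FX m a (x.1, x.2 + Pi.single i 1) := by
  unfold FX
  rw [mul_assoc]
  congr 1
  have hv : ∀ v : Fin k → ℕ, ∏ j, qq m a j ^ v j =
      (∏ j ∈ Finset.univ.erase i, qq m a j ^ v j) * qq m a i ^ v i := fun v =>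
    (Finset.prod_erase_mul Finset.univ _ (Finset.mem_univ i)).symm
  refine (congrArg (· * qq m a i) (hv x.2)).trans ?_
  refine Eq.trans ?_ (hv (x.2 + Pi.single i 1)).symm
  show (∏ j ∈ Finset.univ.erase i, qq m a j ^ x.2 j) * qq m a i ^ x.2 i * qq m a i = _
  rw [mul_assoc, ← pow_succ]
  congr 1
  · refine Finset.prod_congr rfl fun j hj => ?_
    rw [Pi.add_apply, Pi.single_eq_of_ne (Finset.ne_of_mem_erase hj), add_zero]
  · rw [Pi.add_apply, Pi.single_eq_same]

theorem wX_add (x : XX k m) (i : Fin k) :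
    wX (m := m) (x.1, x.2 + Pi.single i 1) = wX x + (m + 1 + i) := by
  unfold wX wB
  rw [add_assoc]
  congr 1
  show ∑ j : Fin k, (m + 1 + (j : ℕ)) * (x.2 + Pi.single i 1 : Fin k → ℕ) j = _
  have h : ∀ j : Fin k, (m + 1 + (j : ℕ)) * (x.2 + Pi.single i 1 : Fin k → ℕ) j =
      (m + 1 + (j : ℕ)) * x.2 j + if j = i then (m + 1 + (j : ℕ)) else 0 := by
    intro j
    rw [Pi.add_apply, mul_add]
    congr 1
    by_cases hj : j = i
    · subst hj
      rw [Pi.single_eq_same, if_pos rfl, mul_one]
    · rw [Pi.single_eq_of_ne hj, if_neg hj, mul_zero]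
  rw [Finset.sum_congr rfl (fun j _ => h j), Finset.sum_add_distrib,
    Finset.sum_ite_eq' Finset.univ i, if_pos (Finset.mem_univ i)]

/-- span of the part of degree at most `D` -/
noncomputable def WD (m : ℕ) (a : Fin k → MvPolynomial (Fin k) R) (D : ℕ) :
    Submodule R (MvPolynomial (Fin k) R) :=
  Submodule.span R {f | ∃ x : XX k m, wX x ≤ D ∧ f = FX m a x}

theorem WD_mono (a : Fin k → MvPolynomial (Fin k) R) {D D' : ℕ} (h : D ≤ D') :
    WD m a D ≤ WD m a D' := by
  apply Submodule.span_mono
  rintro f ⟨x, hx, rfl⟩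
  exact ⟨x, hx.trans h, rfl⟩

theorem WD_mul (a : Fin k → MvPolynomial (Fin k) R) (D : ℕ) (i : Fin k)
    (f : MvPolynomial (Fin k) R) (hf : f ∈ WD m a D) : f * qq m a i ∈ WD m a (D + (m + 1 + i)) := by
  unfold WD at hf
  induction hf using Submodule.span_induction with
  | mem x hx =>
    obtain ⟨x, hx, rfl⟩ := hx
    rw [FX_mul]
    apply Submodule.subset_span
    exact ⟨_, by rw [wX_add]; omega, rfl⟩
  | zero => rw [zero_mul]; exact Submodule.zero_mem _
  | add x y _ _ hx hy => rw [add_mul]; exact Submodule.add_mem _ hx hy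
  | smul r x _ hx => rw [smul_mul_assoc]; exact Submodule.smul_mem _ _ hx

theorem mem_WD [Algebra ℚ R] (hN : Nonsing k m) (a : Fin k → MvPolynomial (Fin k) R)
    (ha : ∀ i, (a i).IsSymmetric) (hd : ∀ i, (a i).totalDegree < m + 1 + i) (D : ℕ)
    (f : MvPolynomial (Fin k) R) (hf : f.IsSymmetric) (hD : f.totalDegree ≤ D) :
    f ∈ WD m a D := by
  induction D using Nat.strong_induction_on generalizing f with
  | _ D ih =>
    have h1 := mem_SP_sup_JJ hN f hf D hD
    have h2 : SP k m R D ≤ WD m a D := by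
      unfold SP
      rw [Submodule.span_le]
      rintro f ⟨l, hl, rfl⟩
      apply Submodule.subset_span
      refine ⟨(l, 0), ?_, (FX_zero a l).symm⟩
      unfold wX wB wL
      simpa using hl
    have h3 : JJ k m R D ≤ WD m a D := by
      unfold JJ
      rw [Submodule.span_le]
      rintro f ⟨i, g, hg, hgd, rfl⟩
      have e : g * psum (Fin k) R (m + 1 + i) = g * qq m a i + g * a i := by
        unfold qq
        ring
      rw [e]
      refine Submodule.add_mem _ ?_ ?_
      · have h4 := WD_mul a _ i g (ih (D - (m + 1 + i)) (by omega) g hg (by omega))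
        rwa [Nat.sub_add_cancel (by omega)] at h4
      · refine WD_mono a (Nat.sub_le D 1) (ih (D - 1) (by omega) _ (hg.mul (ha i)) ?_)
        have h5 := totalDegree_mul g (a i)
        have h6 := hd i
        omega
    exact (sup_le h2 h3) h1

/-! ### Prescribed coefficients -/

theorem antitone_perm_eq (u v : Fin k → ℕ) (hu : Antitone u) (hv : Antitone v)
    (σ : Equiv.Perm (Fin k)) (h : u ∘ σ = v) : u = v := by
  have h1 : Monotone (fun i => OrderDual.toDual (u i)) := fun a b hab => hu hab
  have h2 : Monotone (fun i => OrderDual.toDual (v i)) := fun a b hab => hv hab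
  have h3 := Tuple.unique_monotone (f := fun i => OrderDual.toDual (u i))
    (σ := σ) (τ := Equiv.refl _)
    (by
      have : (fun i => OrderDual.toDual (u i)) ∘ σ = fun i => OrderDual.toDual (v i) := by
        funext i
        exact congrArg OrderDual.toDual (congrFun h i)
      rw [this]
      exact h2)
    (by
      simpa using h1)
  rw [← h]
  funext i
  have h4 := congrFun h3 i
  simp only [Function.comp_apply, Equiv.refl_apply] at h4
  exact (OrderDual.toDual.injective h4).symm

theorem exists_coeffs [Algebra ℚ R] (D : ℕ) [Fintype {y : YY' k // wY y ≤ D}]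
    (t : {y : YY' k // wY y ≤ D} → R) :
    ∃ f : MvPolynomial (Fin k) R, f.IsSymmetric ∧ f.totalDegree ≤ D ∧
      ∀ y : {y : YY' k // wY y ≤ D}, coeff (ex y.1.1) f = t y := by
  classical
  set n : YY' k → ℕ := fun y => (Finset.univ.filter
    (fun σ : Equiv.Perm (Fin k) => y.1 ∘ σ = y.1)).card with hn
  have hn0 : ∀ y, (n y : ℚ) ≠ 0 := by
    intro y
    have : 0 < n y := Finset.card_pos.mpr ⟨1, by
      rw [Finset.mem_filter]
      exact ⟨Finset.mem_univ _, rfl⟩⟩
    exact_mod_cast this.ne'
  have hcoef : ∀ y y' : YY' k, coeff (ex y'.1) (symA R y.1) = if y = y' then (n y : R) else 0 := by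
    intro y y'
    unfold symA
    rw [coeff_sum]
    simp only [coeff_monomial]
    split_ifs with h
    · subst h
      rw [Finset.sum_boole, hn]
      congr 2
      ext σ
      simp only [Finset.mem_filter, Finset.mem_univ, true_and]
      constructor
      · intro h; exact ex_injective h
      · intro h; rw [h]
    · refine Finset.sum_eq_zero fun σ _ => ?_
      rw [if_neg]
      intro h'
      apply h
      exact Subtype.ext (antitone_perm_eq y.1 y'.1 y.2 y'.2 σ (ex_injective h'))
  refine ⟨∑ y : {y : YY' k // wY y ≤ D}, (t y * algebraMap ℚ R ((n y.1 : ℚ)⁻¹)) • symA R y.1.1,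
    ?_, ?_, ?_⟩
  · exact Subalgebra.sum_mem (symmetricSubalgebra (Fin k) R)
      (fun y _ => IsSymmetric.smul _ (symA_isSymmetric y.1.1))
  · refine totalDegree_finsetSum_le fun y _ => ?_
    refine (totalDegree_smul_le _ _).trans ((totalDegree_symA_le _).trans ?_)
    exact y.2
  · intro y
    rw [coeff_sum, Finset.sum_eq_single y]
    · rw [coeff_smul, smul_eq_mul, hcoef, if_pos rfl]
      have : (n y.1 : R) = algebraMap ℚ R (n y.1 : ℚ) := by rw [map_natCast]
      rw [this, mul_assoc, ← map_mul, inv_mul_cancel₀ (hn0 y.1), map_one, mul_one]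
    · intro y' _ hne
      rw [coeff_smul, hcoef, if_neg (fun h => hne (Subtype.ext h)), smul_zero]
    · intro h
      exact absurd (Finset.mem_univ _) h

theorem finite_X (k m D : ℕ) : Finite {x : XX k m // wX x ≤ D} := by
  have h : ∀ d : Fin (D + 1), Finite {x : XX k m // wX x = d} := fun d => FF_wX k m d
  refine Finite.of_injective (β := Σ d : Fin (D + 1), {x : XX k m // wX x = d})
    (fun x => ⟨⟨wX x.1, Nat.lt_succ_of_le x.2⟩, ⟨x.1, rfl⟩⟩) ?_
  intro a b hab
  apply Subtype.ext
  have h1 := congrArg (fun z : (Σ d : Fin (D + 1), {x : XX k m // wX x = d}) => z.2.1) hab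
  exact h1

theorem indep_D [Algebra ℚ R] (hk : 1 ≤ k) (hN : Nonsing k m)
    (a : Fin k → MvPolynomial (Fin k) R)
    (ha : ∀ i, (a i).IsSymmetric) (hd : ∀ i, (a i).totalDegree < m + 1 + i) (D : ℕ)
    [Fintype {x : XX k m // wX x ≤ D}] (c : {x : XX k m // wX x ≤ D} → R)
    (hc : ∑ x, c x • FX m a x.1 = 0) : c = 0 := by
  classical
  obtain ⟨e, he⟩ := exists_equiv k m hk
  have e' : {x : XX k m // wX x ≤ D} ≃ {y : YY' k // wY y ≤ D} :=
    e.subtypeEquiv (fun x => by rw [he x])
  have : Fintype {y : YY' k // wY y ≤ D} := Fintype.ofEquiv _ e'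
  set Ψ : ({x : XX k m // wX x ≤ D} → R) →ₗ[R] ({x : XX k m // wX x ≤ D} → R) :=
    { toFun := fun c z => coeff (ex (e' z).1.1) (∑ x, c x • FX m a x.1)
      map_add' := by
        intro c c'
        funext z
        simp only [Pi.add_apply, add_smul, Finset.sum_add_distrib, coeff_add]
      map_smul' := by
        intro r c
        funext z
        simp only [Pi.smul_apply, smul_eq_mul, RingHom.id_apply, mul_smul, ← Finset.smul_sum,
          coeff_smul] } with hΨ
  have hsurj : Function.Surjective Ψ := by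
    intro t
    obtain ⟨f, hf1, hf2, hf3⟩ := exists_coeffs (R := R) D (fun y => t (e'.symm y))
    have h1 := mem_WD hN a ha hd D f hf1 hf2
    have h2 : f ∈ Submodule.span R (Set.range fun x : {x : XX k m // wX x ≤ D} => FX m a x.1) := by
      refine (Submodule.span_mono ?_) h1
      rintro g ⟨x, hx, rfl⟩
      exact ⟨⟨x, hx⟩, rfl⟩
    obtain ⟨c, hc⟩ := (Submodule.mem_span_range_iff_exists_fun R).mp h2
    refine ⟨c, ?_⟩
    funext z
    show coeff (ex (e' z).1.1) (∑ x, c x • FX m a x.1) = t z
    rw [hc, hf3, Equiv.symm_apply_apply]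
  have hinj : Function.Injective Ψ := OrzechProperty.injective_of_surjective_endomorphism Ψ hsurj
  apply hinj
  rw [map_zero]
  funext z
  show coeff (ex (e' z).1.1) (∑ x, c x • FX m a x.1) = 0
  rw [hc, coeff_zero]

theorem main_indep [Algebra ℚ R] (hk : 1 ≤ k) (hN : Nonsing k m)
    (a : Fin k → MvPolynomial (Fin k) R)
    (ha : ∀ i, (a i).IsSymmetric) (hd : ∀ i, (a i).totalDegree < m + 1 + i) :
    LinearIndependent R (FX m a) := by
  classical
  rw [linearIndependent_iff']
  intro s g hg
  set D := s.sup wX with hD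
  have := finite_X k m D
  have : Fintype {x : XX k m // wX x ≤ D} := Fintype.ofFinite _
  have h1 := indep_D hk hN a ha hd D (fun x => if x.1 ∈ s then g x.1 else 0) (by
    rw [← hg]
    have h2 : ∑ x : {x : XX k m // wX x ≤ D}, (if x.1 ∈ s then g x.1 else 0) • FX m a x.1 =
        ∑ x ∈ (Finset.univ : Finset {x : XX k m // wX x ≤ D}).filter (fun x => x.1 ∈ s),
          g x.1 • FX m a x.1 := by
      rw [Finset.sum_filter]
      refine Finset.sum_congr rfl fun x _ => ?_
      split_ifs
      · rfl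
      · rw [zero_smul]
    rw [h2]
    refine Finset.sum_bij (fun x _ => x.1) ?_ ?_ ?_ ?_
    · intro x hx
      exact (Finset.mem_filter.mp hx).2
    · intro x _ y _ hxy
      exact Subtype.ext hxy
    · intro x hx
      exact ⟨⟨x, Finset.le_sup (f := wX) hx⟩, by
        rw [Finset.mem_filter]
        exact ⟨Finset.mem_univ _, hx⟩, rfl⟩
    · intro x _
      rfl)
  intro x hx
  have h3 := congrFun h1 ⟨x, Finset.le_sup (f := wX) hx⟩
  simpa [hx] using h3

theorem main_span [Algebra ℚ R] (hN : Nonsing k m) (a : Fin k → MvPolynomial (Fin k) R)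
    (ha : ∀ i, (a i).IsSymmetric) (hd : ∀ i, (a i).totalDegree < m + 1 + i)
    (f : MvPolynomial (Fin k) R) (hf : f.IsSymmetric) :
    f ∈ Submodule.span R (Set.range (FX m a)) := by
  have h1 := mem_WD hN a ha hd _ f hf le_rfl
  refine (Submodule.span_mono ?_) h1
  rintro g ⟨x, _, rfl⟩
  exact ⟨x, rfl⟩

end Pool.Agent.Lib.MP_c1a8e2_al
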