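import Pool.Agent.Lib.MP_c1a8e2_al.h30.Two

/-!
# Two variables, `m + 1` a prime power: the argument modulo `p`
-/

set_option autoImplicit false

open Finset

namespace Pool.Agent.Lib.MP_c1a8e2_al

variable {m : ℕ}

theorem cube_root (L : Type) [Field L] (w : L) (hw : w ^ 2 + w + 1 = 0) : w ^ 3 = 1 := by
  have : (w - 1) * (w ^ 2 + w + 1) = w ^ 3 - 1 := by ring
  rw [hw, mul_zero] at this
  exact (sub_eq_zero.mp this.symm)

theorem root_pow_ne (L : Type) [Field L] (h3 : (3 : L) ≠ 0) (w : L) (hw : w ^ 2 + w + 1 = 0)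
    (q : ℕ) (hq : Nat.Coprime q 3) : w ^ q ≠ (w ^ 2) ^ q := by
  have hc := cube_root L w hw
  have hw0 : w ≠ 0 := by
    rintro rfl
    simp at hw
  intro h
  have h1 : w ^ q = 1 := by
    have h2 : w ^ q * w ^ q = w ^ q * 1 := by
      rw [mul_one, ← mul_pow, ← pow_two]
      exact h.symm
    exact mul_left_cancel₀ (pow_ne_zero q hw0) h2
  have h4 : w = 1 := by
    have h5 : orderOf w ∣ q := orderOf_dvd_of_pow_eq_one h1
    have h6 : orderOf w ∣ 3 := orderOf_dvd_of_pow_eq_one hc
    have h7 : orderOf w ∣ 1 := by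
      rw [← hq]
      exact Nat.dvd_gcd h5 h6
    exact orderOf_eq_one_iff.mp (Nat.dvd_one.mp h7)
  rw [h4] at hw
  apply h3
  norm_num at hw
  exact hw

theorem keyA_aux (L : Type) [Field L] (p a : ℕ) [Fact p.Prime] [CharP L p] (w : L)
    (A B : Polynomial L) (s : ℕ) (hs : s ≤ p ^ a) (hA : A.degree < s) (hB : B.degree < s)
    (h : (Polynomial.X - Polynomial.C w) ^ s ∣ A + Polynomial.X ^ (p ^ a) * B) :
    A + Polynomial.C (w ^ (p ^ a)) * B = 0 := by
  have h1 : (Polynomial.X : Polynomial L) ^ (p ^ a) - Polynomial.C (w ^ (p ^ a)) =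
      (Polynomial.X - Polynomial.C w) ^ (p ^ a) := by
    rw [sub_pow_char_pow, Polynomial.C_pow]
  have h2 : (Polynomial.X - Polynomial.C w) ^ s ∣ A + Polynomial.C (w ^ (p ^ a)) * B := by
    have h3 : A + Polynomial.C (w ^ (p ^ a)) * B = (A + Polynomial.X ^ (p ^ a) * B) -
        ((Polynomial.X : Polynomial L) ^ (p ^ a) - Polynomial.C (w ^ (p ^ a))) * B := by ring
    rw [h3, h1]
    exact dvd_sub h (Dvd.dvd.mul_right (pow_dvd_pow _ hs) B)
  refine Polynomial.eq_zero_of_dvd_of_degree_lt h2 ?_
  have h4 : ((Polynomial.X - Polynomial.C w : Polynomial L) ^ s).degree = s := by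
    rw [Polynomial.degree_pow, Polynomial.degree_X_sub_C]
    simp
  rw [h4]
  refine lt_of_le_of_lt (Polynomial.degree_add_le _ _) (max_lt hA ?_)
  rw [Polynomial.degree_lt_iff_coeff_zero] at hB ⊢
  intro n hn
  rw [Polynomial.coeff_C_mul, hB n hn, mul_zero]

theorem keyA (L : Type) [Field L] (p a : ℕ) [hp : Fact p.Prime] [CharP L p] (hp3 : p ≠ 3) (w : L)
    (hw : w ^ 2 + w + 1 = 0)
    (A B : Polynomial L) (s : ℕ) (hs : s ≤ p ^ a) (hA : A.degree < s) (hB : B.degree < s)
    (h : (Polynomial.X ^ 2 + Polynomial.X + 1) ^ s ∣ A + Polynomial.X ^ (p ^ a) * B) :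
    A = 0 ∧ B = 0 := by
  have h3 : (3 : L) ≠ 0 := by
    intro h0
    have h1 : ((3 : ℕ) : L) = 0 := by exact_mod_cast h0
    rw [CharP.cast_eq_zero_iff L p] at h1
    exact hp3 ((Nat.prime_dvd_prime_iff_eq hp.out Nat.prime_three).mp h1)
  have hq : Nat.Coprime (p ^ a) 3 :=
    Nat.Coprime.pow_left a ((Nat.coprime_primes hp.out Nat.prime_three).mpr hp3)
  have hne := root_pow_ne L h3 w hw (p ^ a) hq
  have hw2 : w ^ 2 = -w - 1 := by linear_combination hw
  have hfac : (Polynomial.X ^ 2 + Polynomial.X + 1 : Polynomial L) =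
      (Polynomial.X - Polynomial.C w) * (Polynomial.X - Polynomial.C (w ^ 2)) := by
    have e1 : (Polynomial.C w * Polynomial.C (w ^ 2) : Polynomial L) = 1 := by
      rw [← Polynomial.C_mul, ← pow_succ', cube_root L w hw, Polynomial.C_1]
    have e2 : (Polynomial.C w + Polynomial.C (w ^ 2) : Polynomial L) = -1 := by
      rw [← Polynomial.C_add, hw2]
      have : w + (-w - 1) = -1 := by ring
      rw [this]
      simp
    have e3 : (Polynomial.X - Polynomial.C w) * (Polynomial.X - Polynomial.C (w ^ 2)) =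
        Polynomial.X ^ 2 - (Polynomial.C w + Polynomial.C (w ^ 2)) * Polynomial.X +
          Polynomial.C w * Polynomial.C (w ^ 2) := by ring
    rw [e3, e1, e2]
    ring
  have hd1 : (Polynomial.X - Polynomial.C w) ^ s ∣ A + Polynomial.X ^ (p ^ a) * B := by
    refine dvd_trans ?_ h
    rw [hfac, mul_pow]
    exact dvd_mul_right _ _
  have hd2 : (Polynomial.X - Polynomial.C (w ^ 2)) ^ s ∣ A + Polynomial.X ^ (p ^ a) * B := by
    refine dvd_trans ?_ h
    rw [hfac, mul_pow]
    exact dvd_mul_left _ _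
  have k1 := keyA_aux L p a w A B s hs hA hB hd1
  have k2 := keyA_aux L p a (w ^ 2) A B s hs hA hB hd2
  have k3 : Polynomial.C (w ^ (p ^ a) - (w ^ 2) ^ (p ^ a)) * B = 0 := by
    rw [Polynomial.C_sub]
    linear_combination k1 - k2
  have k4 : B = 0 := by
    rcases mul_eq_zero.mp k3 with h5 | h5
    · exfalso
      rw [Polynomial.C_eq_zero, sub_eq_zero] at h5
      exact hne h5
    · exact h5
  refine ⟨?_, k4⟩
  rw [k4, mul_zero, add_zero] at k1
  exact k1

theorem keyB (L : Type) [Field L] (w : L) (hw : w ^ 2 + w + 1 = 0) (d : ℕ) (c : Box 2 m → L)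
    (hc : ∀ l, c l ≠ 0 → l.1 0 + l.1 1 = d)
    (h : ∑ l : Box 2 m, Polynomial.C (c l) * ((Polynomial.X ^ 2 + Polynomial.X + 1) ^ (l.1 1) *
      (Polynomial.X + 1) ^ (l.1 0 - l.1 1)) = 0) : c = 0 := by
  classical
  by_contra hne
  obtain ⟨l₁, hl₁⟩ : ∃ l, c l ≠ 0 := by
    by_contra hc'
    push Not at hc'
    exact hne (funext hc')
  obtain ⟨l, hl, hmin⟩ := Finset.exists_min_image
    (Finset.univ.filter (fun l : Box 2 m => c l ≠ 0)) (fun l => l.1 1)
    ⟨l₁, Finset.mem_filter.mpr ⟨Finset.mem_univ _, hl₁⟩⟩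
  rw [Finset.mem_filter] at hl
  have hu : (Polynomial.X ^ 2 + Polynomial.X + 1 : Polynomial L) ≠ 0 := by
    have : (Polynomial.X ^ 2 + Polynomial.X + 1 : Polynomial L).coeff 2 = 1 := by
      simp [Polynomial.coeff_one, Polynomial.coeff_X]
    intro h0
    rw [h0] at this
    simp at this
  have hfac : (Polynomial.X ^ 2 + Polynomial.X + 1 : Polynomial L) ^ (l.1 1) *
      ∑ l' : Box 2 m, Polynomial.C (c l') *
        ((Polynomial.X ^ 2 + Polynomial.X + 1) ^ (l'.1 1 - l.1 1) *
          (Polynomial.X + 1) ^ (l'.1 0 - l'.1 1)) = 0 := by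
    rw [← h, Finset.mul_sum]
    refine Finset.sum_congr rfl fun l' _ => ?_
    by_cases h0 : c l' = 0
    · rw [h0, Polynomial.C_0, zero_mul, zero_mul, mul_zero]
    · have h1 := hmin l' (Finset.mem_filter.mpr ⟨Finset.mem_univ _, h0⟩)
      have h2 : l'.1 1 = l.1 1 + (l'.1 1 - l.1 1) := by omega
      have h3 : (Polynomial.X ^ 2 + Polynomial.X + 1 : Polynomial L) ^ (l'.1 1) =
          (Polynomial.X ^ 2 + Polynomial.X + 1) ^ (l.1 1) *
            (Polynomial.X ^ 2 + Polynomial.X + 1) ^ (l'.1 1 - l.1 1) := by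
        rw [← pow_add, ← h2]
      rw [h3]
      ring
  have hsum := (mul_eq_zero.mp hfac).resolve_left (pow_ne_zero _ hu)
  have hev := congrArg (Polynomial.eval w) hsum
  rw [Polynomial.eval_finsetSum, Finset.sum_eq_single l] at hev
  · simp only [Polynomial.eval_mul, Polynomial.eval_C, Polynomial.eval_pow, Polynomial.eval_add,
      Polynomial.eval_X, Polynomial.eval_one, Nat.sub_self, pow_zero, one_mul,
      Polynomial.eval_zero] at hev
    rcases mul_eq_zero.mp hev with h1 | h1
    · exact hl.2 h1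
    · have h2 : w + 1 = 0 := by
        have h0 : l.1 0 - l.1 1 ≠ 0 := by
          intro h00
          rw [h00, pow_zero] at h1
          exact one_ne_zero h1
        exact (pow_eq_zero_iff h0).mp h1
      have h3 : w ^ 2 = 0 := by linear_combination hw - h2
      have h4 : w = 0 := pow_eq_zero_iff (two_ne_zero) |>.mp h3
      rw [h4] at hw
      simp at hw
  · intro l' _ hne'
    by_cases h0 : c l' = 0
    · simp [h0]
    · have h1 := hmin l' (Finset.mem_filter.mpr ⟨Finset.mem_univ _, h0⟩)
      have h2 : l'.1 1 ≠ l.1 1 := by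
        intro he
        apply hne'
        have h3 := hc l hl.2
        have h4 := hc l' h0
        apply Subtype.ext
        funext i
        fin_cases i
        · simp only [Fin.zero_eta]; omega
        · exact he
      have h3 : l'.1 1 - l.1 1 ≠ 0 := by omega
      simp only [Polynomial.eval_mul, Polynomial.eval_C, Polynomial.eval_pow, Polynomial.eval_add,
        Polynomial.eval_X, Polynomial.eval_one]
      rw [hw, zero_pow h3, zero_mul, mul_zero]
  · intro h'
    exact absurd (Finset.mem_univ _) h'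

theorem two_field (L : Type) [Field L] (p a : ℕ) [hp : Fact p.Prime] [CharP L p] (hp3 : p ≠ 3)
    (w : L) (hw : w ^ 2 + w + 1 = 0) (hm : m + 1 = p ^ a) (c : Box 2 m → L)
    (hc : ∀ b : Box 2 m, ∑ l, c l * MvPolynomial.coeff (ex b.1) (hConj 2 m L l.1) = 0) :
    c = 0 := by
  classical
  -- restriction to one degree
  have main : ∀ d : ℕ, (fun l : Box 2 m => if l.1 0 + l.1 1 = d then c l else 0) = 0 := by
    intro d
    by_cases hd2 : 2 * m < d
    · funext l
      have h0 := l.2.2 0
      have h1 := l.2.2 1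
      rw [Pi.zero_apply]
      exact if_neg (by omega)
    set cd : Box 2 m → L := fun l => if l.1 0 + l.1 1 = d then c l else 0 with hcd
    have hcd0 : ∀ l, cd l ≠ 0 → l.1 0 + l.1 1 = d := by
      intro l hl
      by_contra h
      exact hl (if_neg h)
    set F : MvPolynomial (Fin 2) L := ∑ l : Box 2 m, cd l • hConj 2 m L l.1 with hF
    have hFs : F.IsSymmetric :=
      Subalgebra.sum_mem (MvPolynomial.symmetricSubalgebra (Fin 2) L)
        (fun l _ => MvPolynomial.IsSymmetric.smul _ (hConj_isSymmetric l.1))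
    have hFh : ∀ w : Fin 2 →₀ ℕ, MvPolynomial.coeff w F ≠ 0 → w 0 + w 1 = d := by
      intro w hw
      rw [hF, MvPolynomial.coeff_sum] at hw
      obtain ⟨l, _, hl⟩ := Finset.exists_ne_zero_of_sum_ne_zero hw
      rw [MvPolynomial.coeff_smul, smul_eq_mul] at hl
      have h1 := coeff_hConj l.1 l.2.2 w (right_ne_zero_of_mul hl)
      have h2 := hcd0 l (left_ne_zero_of_mul hl)
      rw [Fin.sum_univ_two, Fin.sum_univ_two] at h1
      omega
    have hFb : ∀ b : Box 2 m, MvPolynomial.coeff (ex b.1) F = 0 := by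
      intro b
      by_cases hb : b.1 0 + b.1 1 = d
      · rw [← hc b, hF, MvPolynomial.coeff_sum]
        refine Finset.sum_congr rfl fun l _ => ?_
        rw [MvPolynomial.coeff_smul, smul_eq_mul]
        by_cases hl : l.1 0 + l.1 1 = d
        · rw [hcd]
          simp only
          rw [if_pos hl]
        · have h2 : MvPolynomial.coeff (ex b.1) (hConj 2 m L l.1) = 0 := by
            by_contra h3
            have h4 := coeff_hConj l.1 l.2.2 _ h3
            rw [Fin.sum_univ_two, Fin.sum_univ_two, ex_apply, ex_apply] at h4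
            omega
          rw [h2, mul_zero, mul_zero]
      · by_contra h3
        have h4 := hFh _ h3
        rw [ex_apply, ex_apply] at h4
        exact hb h4
    have hF0 := coeff_eq_zero_of_box F hFs hFb
    set G : Polynomial L := sub1 L F with hG
    have hGsum : G = ∑ l : Box 2 m, Polynomial.C (cd l) *
        ((Polynomial.X ^ 2 + Polynomial.X + 1) ^ (l.1 1) *
          (Polynomial.X + 1) ^ (l.1 0 - l.1 1)) := by
      rw [hG, hF, map_sum]
      refine Finset.sum_congr rfl fun l _ => ?_
      rw [map_smul, sub1_hConj, Polynomial.smul_eq_C_mul]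
    have hGhigh : ∀ n, d < n → G.coeff n = 0 := by
      intro n hn
      rw [hG, F.as_sum, map_sum, Polynomial.finsetSum_coeff]
      refine Finset.sum_eq_zero fun v hv => ?_
      rw [sub1_monomial, Polynomial.coeff_monomial, if_neg]
      have := hFh v (MvPolynomial.mem_support_iff.mp hv)
      omega
    have hGmid : ∀ n, d - m ≤ n → n ≤ m → G.coeff n = 0 := by
      intro n hn hn'
      by_cases hnd : d < n
      · exact hGhigh n hnd
      · rw [hG, sub1_coeff L F d hFh n (by omega)]
        apply hF0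
        intro i
        fin_cases i
        · simpa using hn'
        · simp only [Fin.mk_one, ex_apply, Matrix.cons_val_one]
          simp
          omega
    set s := d - m with hs
    set A : Polynomial L := ∑ j ∈ range s, Polynomial.C (G.coeff j) * Polynomial.X ^ j with hA
    set B : Polynomial L := ∑ j ∈ range s, Polynomial.C (G.coeff (m + 1 + j)) * Polynomial.X ^ j
      with hB
    have hcoef : ∀ (g : ℕ → L) (n : ℕ), (∑ j ∈ range s, Polynomial.C (g j) *
        Polynomial.X ^ j : Polynomial L).coeff n = if n < s then g n else 0 := by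
      intro g n
      rw [Polynomial.finsetSum_coeff]
      simp only [Polynomial.coeff_C_mul_X_pow]
      rw [Finset.sum_ite_eq (range s) n]
      simp only [Finset.mem_range]
    have hdeg : ∀ (g : ℕ → L), (∑ j ∈ range s, Polynomial.C (g j) *
        Polynomial.X ^ j : Polynomial L).degree < s := by
      intro g
      rw [Polynomial.degree_lt_iff_coeff_zero]
      intro n hn
      rw [hcoef, if_neg (by omega)]
    have hGAB : G = A + Polynomial.X ^ (p ^ a) * B := by
      ext n
      rw [Polynomial.coeff_add, Polynomial.coeff_X_pow_mul', hA, hB, hcoef, ← hm]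
      by_cases h1 : n < s
      · rw [if_pos h1, if_neg (by omega), add_zero]
      · rw [if_neg h1, zero_add]
        by_cases h2 : m + 1 ≤ n
        · rw [if_pos h2, hcoef]
          by_cases h3 : n - (m + 1) < s
          · rw [if_pos h3]
            congr 1
            omega
          · rw [if_neg h3]
            exact hGhigh n (by omega)
        · rw [if_neg h2]
          exact hGmid n (by omega) (by omega)
    have hdvd : (Polynomial.X ^ 2 + Polynomial.X + 1 : Polynomial L) ^ s ∣ G := by
      rw [hGsum]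
      refine Finset.dvd_sum fun l _ => ?_
      by_cases h0 : cd l = 0
      · rw [h0, Polynomial.C_0, zero_mul]
        exact dvd_zero _
      · have h1 := hcd0 l h0
        have h2 := l.2.2 0
        refine Dvd.dvd.mul_left (Dvd.dvd.mul_right (pow_dvd_pow _ ?_) _) _
        omega
    rw [hGAB] at hdvd
    obtain ⟨hA0, hB0⟩ := keyA L p a hp3 w hw A B s (by rw [← hm]; omega) (hdeg _) (hdeg _) hdvd
    have hG0 : G = 0 := by
      rw [hGAB, hA0, hB0, mul_zero, add_zero]
    exact keyB L w hw d cd hcd0 (by rw [← hGsum]; exact hG0)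
  funext l
  have h := congrFun (main (l.1 0 + l.1 1)) l
  simpa using h

theorem nonsing_two (p a : ℕ) (hp : p.Prime) (hp3 : p ≠ 3) (hm : m + 1 = p ^ a) :
    Nonsing 2 m := by
  have : Fact p.Prime := ⟨hp⟩
  obtain ⟨w, hw⟩ := IsAlgClosed.exists_root (k := AlgebraicClosure (ZMod p))
    (Polynomial.X ^ 2 + Polynomial.X + 1) (by
      have : (Polynomial.X ^ 2 + Polynomial.X + 1 : Polynomial (AlgebraicClosure (ZMod p))).degree
          = 2 := by compute_degree!
      rw [this]
      norm_num)
  have : CharP (AlgebraicClosure (ZMod p)) p := inferInstance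
  refine nonsing_of_field (AlgebraicClosure (ZMod p)) fun c hc => ?_
  refine two_field (AlgebraicClosure (ZMod p)) p a hp3 w ?_ hm c hc
  simpa using hw

end Pool.Agent.Lib.MP_c1a8e2_al
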