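import Pool.Agent.Lib.MP_c1a8e2_al.h30.Statement
import Pool.Agent.Lib.MP_c1a8e2_al.h30.Main
import Pool.Agent.Lib.MP_c1a8e2_al.h30.TwoMain

/-!
# Q1, Q2 and the nonsingularity of the matrix
-/

set_option autoImplicit false

open MvPolynomial

namespace Pool.Agent.Lib.MP_c1a8e2_al

variable {k m : ℕ} {R : Type*} [CommRing R]

theorem mul_mem_ne (A : Fin k → MvPolynomial (Fin k) R) (i : Fin k) (f : MvPolynomial (Fin k) R)
    (hf : f ∈ Submodule.span R (Set.range (FX m A))) :
    f * qq m A i ∈ Submodule.span R (FX m A '' {x : XX k m | x.2 ≠ 0}) := by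
  induction hf using Submodule.span_induction with
  | mem x hx =>
    obtain ⟨x, rfl⟩ := hx
    rw [FX_mul]
    refine Submodule.subset_span ⟨_, ?_, rfl⟩
    intro h0
    have h3 : (x.2 + Pi.single i 1 : Fin k → ℕ) i = 0 := congrFun h0 i
    rw [Pi.add_apply, Pi.single_eq_same] at h3
    simp at h3
  | zero => rw [zero_mul]; exact Submodule.zero_mem _
  | add x y _ _ hx hy => rw [add_mul]; exact Submodule.add_mem _ hx hy
  | smul r x _ hx => rw [smul_mul_assoc]; exact Submodule.smul_mem _ _ hx

/-- The key consequence of the basis property: `h_{λ'}` are independent modulo the ideal. -/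
theorem sep (A : Fin k → MvPolynomial (Fin k) R) (hI : LinearIndependent R (FX m A))
    (hsp : ∀ f : MvPolynomial (Fin k) R, f.IsSymmetric → f ∈ Submodule.span R (Set.range (FX m A)))
    (c : Box k m → R) (g : Fin k → MvPolynomial (Fin k) R) (hg : ∀ i, (g i).IsSymmetric)
    (h : ∑ l, c l • hConj k m R l.1 = ∑ i, g i * qq m A i) : c = 0 := by
  classical
  have h1 : ∑ i, g i * qq m A i ∈ Submodule.span R (FX m A '' {x : XX k m | x.2 ≠ 0}) :=
    Submodule.sum_mem _ fun i _ => mul_mem_ne A i (g i) (hsp (g i) (hg i))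
  have h2 : ∑ l, c l • hConj k m R l.1 ∈ Submodule.span R (FX m A '' {x : XX k m | x.2 = 0}) := by
    refine Submodule.sum_mem _ fun l _ => Submodule.smul_mem _ _ (Submodule.subset_span ?_)
    exact ⟨(l, 0), rfl, FX_zero A l⟩
  have hdis : Disjoint {x : XX k m | x.2 = 0} {x : XX k m | x.2 ≠ 0} := by
    rw [Set.disjoint_left]
    intro x hx hx'
    exact hx' hx
  have h3 := hI.disjoint_span_image hdis
  rw [Submodule.disjoint_def] at h3
  have h4 := h3 _ h2 (by rw [h]; exact h1)
  have h5 : LinearIndependent R (fun l : Box k m => FX m A (l, 0)) :=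
    hI.comp (fun l => (l, 0)) (fun a b hab => (Prod.mk.inj hab).1)
  rw [Fintype.linearIndependent_iff] at h5
  funext l
  refine h5 c ?_ l
  rw [← h4]
  exact Finset.sum_congr rfl fun l _ => by rw [FX_zero]

/-! ### Multisets of parts -/

/-- the multiset with prescribed multiplicities -/
def toQ (k m : ℕ) (v : Fin k → ℕ) : Multiset ℕ := ∑ i, Multiset.replicate (v i) (m + 1 + i)

theorem count_toQ (v : Fin k → ℕ) (i : Fin k) : (toQ k m v).count (m + 1 + i) = v i := by
  classical
  unfold toQ
  rw [Multiset.count_sum', Finset.sum_eq_single i]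
  · rw [Multiset.count_replicate_self]
  · intro j _ hj
    rw [Multiset.count_replicate, if_neg]
    intro h
    exact hj (Fin.ext (by omega))
  · intro h
    exact absurd (Finset.mem_univ _) h

theorem mem_toQ (v : Fin k → ℕ) (a : ℕ) (ha : a ∈ toQ k m v) : m + 1 ≤ a ∧ a ≤ m + k := by
  unfold toQ at ha
  rw [Multiset.mem_sum] at ha
  obtain ⟨i, _, hi⟩ := ha
  rw [Multiset.eq_of_mem_replicate hi]
  have := i.2
  omega

theorem toQ_count (μ : Multiset ℕ) (hμ : ∀ a ∈ μ, m + 1 ≤ a ∧ a ≤ m + k) :
    toQ k m (fun i => μ.count (m + 1 + i)) = μ := by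
  classical
  ext a
  by_cases ha : m + 1 ≤ a ∧ a ≤ m + k
  · obtain ⟨i, rfl⟩ : ∃ i : Fin k, a = m + 1 + i := ⟨⟨a - (m + 1), by omega⟩, by simp only; omega⟩
    rw [count_toQ]
  · rw [Multiset.count_eq_zero.mpr (fun h => ha (mem_toQ _ a h)),
      Multiset.count_eq_zero.mpr (fun h => ha (hμ a h))]

theorem prod_toQ {S : Type*} [CommSemiring S] (v : Fin k → ℕ) (f : ℕ → S) :
    ((toQ k m v).map f).prod = ∏ i : Fin k, f (m + 1 + (i : ℕ)) ^ v i := by
  classical
  unfold toQ
  have h : ∀ s : Finset (Fin k), ((∑ i ∈ s, Multiset.replicate (v i) (m + 1 + i)).map f).prod =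
      ∏ i ∈ s, f (m + 1 + i) ^ v i := by
    intro s
    induction s using Finset.induction_on with
    | empty => simp
    | insert a s ha ih =>
      rw [Finset.sum_insert ha, Finset.prod_insert ha, Multiset.map_add, Multiset.prod_add, ih,
        Multiset.map_replicate, Multiset.prod_replicate]
  exact h _

/-- the reindexing -/
def reQ (k n : ℕ) (hkn : k ≤ n) : (Fin k → ℕ) ≃ QPart k n where
  toFun v := ⟨toQ k (n - k) v, fun a ha => by
    have := mem_toQ v a ha
    omega⟩
  invFun μ := fun i => μ.1.count (n - k + 1 + i)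
  left_inv v := by
    funext i
    exact count_toQ v i
  right_inv μ := Subtype.ext (toQ_count μ.1 (fun a ha => by
    have := μ.2 a ha
    omega))

theorem fam_coe (n : ℕ) (hkn : k ≤ n) (l : Box k (n - k)) (v : Fin k → ℕ) :
    (fam k n R (l, reQ k n hkn v) : MvPolynomial (Fin k) R) = FX (n - k) 0 (l, v) := by
  unfold fam FX
  rw [MulMemClass.coe_mul]
  congr 1
  show ((((toQ k (n - k) v).map (pS k R)).prod : symmetricSubalgebra (Fin k) R) :
    MvPolynomial (Fin k) R) = _
  rw [prod_toQ]
  rw [SubmonoidClass.coe_finsetProd]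
  refine Finset.prod_congr rfl fun i _ => ?_
  rw [SubmonoidClass.coe_pow]
  unfold qq pS
  rw [Pi.zero_apply, sub_zero]

theorem mem_span_coe {ι : Type*} (F : ι → symmetricSubalgebra (Fin k) R)
    (f : symmetricSubalgebra (Fin k) R) :
    f ∈ Submodule.span R (Set.range F) ↔ (f : MvPolynomial (Fin k) R) ∈
      Submodule.span R (Set.range fun x => (F x : MvPolynomial (Fin k) R)) := by
  have h1 : Submodule.span R (Set.range fun x => (F x : MvPolynomial (Fin k) R)) =
      (Submodule.span R (Set.range F)).map (symmetricSubalgebra (Fin k) R).val.toLinearMap := by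
    rw [Submodule.map_span, ← Set.range_comp]
    rfl
  rw [h1]
  constructor
  · intro h
    exact ⟨f, h, rfl⟩
  · rintro ⟨g, hg, hgf⟩
    have : g = f := Subtype.ext hgf
    rwa [← this]

theorem linInd_coe {ι : Type*} (F : ι → symmetricSubalgebra (Fin k) R) :
    LinearIndependent R F ↔ LinearIndependent R (fun x => (F x : MvPolynomial (Fin k) R)) := by
  constructor
  · intro h
    refine h.map' (symmetricSubalgebra (Fin k) R).val.toLinearMap ?_
    rw [LinearMap.ker_eq_bot]
    exact Subtype.val_injective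
  · intro h
    exact LinearIndependent.of_comp (symmetricSubalgebra (Fin k) R).val.toLinearMap h

theorem Q1_iff_FX (n : ℕ) (hkn : k ≤ n) :
    Q1 k n R ↔ (LinearIndependent R (FX (R := R) (n - k) 0 : XX k (n - k) → _) ∧
      ∀ f : MvPolynomial (Fin k) R, f.IsSymmetric →
        f ∈ Submodule.span R (Set.range (FX (R := R) (n - k) 0 : XX k (n - k) → _))) := by
  have e : (fun x : XX k (n - k) =>
      (fam k n R ((Equiv.prodCongr (Equiv.refl _) (reQ k n hkn)) x) : MvPolynomial (Fin k) R)) =
      FX (R := R) (n - k) 0 := by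
    funext x
    exact fam_coe n hkn x.1 x.2
  have hr : Set.range (fun x => (fam k n R x : MvPolynomial (Fin k) R)) =
      Set.range (FX (R := R) (n - k) 0 : XX k (n - k) → _) := by
    rw [← e]
    exact ((Equiv.prodCongr (Equiv.refl _) (reQ k n hkn)).surjective.range_comp
      (fun x => (fam k n R x : MvPolynomial (Fin k) R))).symm
  unfold Q1
  rw [linInd_coe, ← e, ← linearIndependent_equiv (Equiv.prodCongr (Equiv.refl _) (reQ k n hkn))]
  refine and_congr Iff.rfl ?_
  rw [e, ← hr, Submodule.eq_top_iff']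
  constructor
  · intro h f hf
    exact (mem_span_coe _ (⟨f, hf⟩ : symmetricSubalgebra (Fin k) R)).mp (h _)
  · intro h f
    exact (mem_span_coe _ f).mpr (h f.1 f.2)

theorem Q1_of_nonsing [Algebra ℚ R] (n : ℕ) (hk : 1 ≤ k) (hkn : k ≤ n)
    (hN : Nonsing k (n - k)) : Q1 k n R := by
  rw [Q1_iff_FX n hkn]
  refine ⟨main_indep hk hN 0 (fun i => IsSymmetric.zero) (fun i => ?_),
    fun f hf => main_span hN 0 (fun i => IsSymmetric.zero) (fun i => ?_) f hf⟩
  · rw [Pi.zero_apply, totalDegree_zero]
    omega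
  · rw [Pi.zero_apply, totalDegree_zero]
    omega

theorem Q2_of_nonsing [Algebra ℚ R] (n : ℕ) (hk : 1 ≤ k)
    (hN : Nonsing k (n - k)) : Q2 k n R := by
  classical
  intro a ha
  set A : Fin k → MvPolynomial (Fin k) R := fun i => (a i : MvPolynomial (Fin k) R) with hA
  have hAs : ∀ i, (A i).IsSymmetric := fun i => (a i).2
  have hI := main_indep hk hN A hAs ha
  have hsp := fun f hf => main_span hN A hAs ha f hf
  constructor
  · rw [Fintype.linearIndependent_iff]
    intro c hc
    have h1 : ∑ l, c l • Ideal.Quotient.mk (idealJ k n R a) (hS k n R l) =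
        Ideal.Quotient.mk (idealJ k n R a) (∑ l, c l • hS k n R l) := by
      rw [map_sum]
      rfl
    rw [h1, Ideal.Quotient.eq_zero_iff_mem] at hc
    unfold idealJ at hc
    rw [Ideal.mem_span_range_iff_exists_fun] at hc
    obtain ⟨g, hg⟩ := hc
    have h2 := sep A hI hsp c (fun i => (g i : MvPolynomial (Fin k) R)) (fun i => (g i).2) (by
      have h3 := congrArg (fun z : symmetricSubalgebra (Fin k) R =>
        (z : MvPolynomial (Fin k) R)) hg
      simp only [AddSubmonoidClass.coe_finsetSum, MulMemClass.coe_mul,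
        AddSubgroupClass.coe_sub] at h3
      rw [← Finset.sum_congr rfl (fun (l : Box k (n - k)) _ => rfl)]
      exact h3.symm)
    intro l
    rw [h2, Pi.zero_apply]
  · rw [Submodule.eq_top_iff']
    intro z
    obtain ⟨f, rfl⟩ := Ideal.Quotient.mk_surjective z
    have h1 := hsp f.1 f.2
    -- the family inside the subalgebra
    set fS : XX k (n - k) → symmetricSubalgebra (Fin k) R := fun x =>
      hS k n R x.1 * ∏ i : Fin k, (pS k R (n - k + 1 + i) - a i) ^ x.2 i with hfS
    have h2 : (fun x => (fS x : MvPolynomial (Fin k) R)) = FX (n - k) A := by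
      funext x
      rw [hfS]
      simp only
      rw [MulMemClass.coe_mul, SubmonoidClass.coe_finsetProd]
      unfold FX
      congr 1
    rw [← h2] at h1
    have h3 := (mem_span_coe fS f).mpr h1
    have hmem : ∀ x, Ideal.Quotient.mk (idealJ k n R a) (fS x) ∈ Submodule.span R
        (Set.range fun l => Ideal.Quotient.mk (idealJ k n R a) (hS k n R l)) := by
      intro x
      by_cases h0 : x.2 = 0
      · have : fS x = hS k n R x.1 := by
          rw [hfS]
          simp only
          rw [h0]
          simp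
        rw [this]
        exact Submodule.subset_span ⟨x.1, rfl⟩
      · have h4 : ∃ i, x.2 i ≠ 0 := by
          by_contra hc
          push Not at hc
          exact h0 (funext hc)
        obtain ⟨i, hi⟩ := h4
        have h5 : Ideal.Quotient.mk (idealJ k n R a) (fS x) = 0 := by
          rw [Ideal.Quotient.eq_zero_iff_mem]
          rw [hfS]
          simp only
          refine Ideal.mul_mem_left _ _ ?_
          rw [← Finset.mul_prod_erase Finset.univ _ (Finset.mem_univ i)]
          refine Ideal.mul_mem_right _ _ ?_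
          refine Ideal.pow_mem_of_mem _ ?_ _ (Nat.pos_of_ne_zero hi)
          exact Ideal.subset_span ⟨i, rfl⟩
        rw [h5]
        exact Submodule.zero_mem _
    have h6 : Submodule.span R (Set.range fS) ≤ (Submodule.span R
        (Set.range fun l => Ideal.Quotient.mk (idealJ k n R a) (hS k n R l))).comap
          (Ideal.Quotient.mkₐ R (idealJ k n R a)).toLinearMap := by
      rw [Submodule.span_le]
      rintro g ⟨x, rfl⟩
      exact hmem x
    exact h6 h3

theorem JJ_exists (D : ℕ) (f : MvPolynomial (Fin k) R) (hf : f ∈ JJ k m R D) :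
    ∃ g : Fin k → MvPolynomial (Fin k) R, (∀ i, (g i).IsSymmetric) ∧
      f = ∑ i, g i * psum (Fin k) R (m + 1 + i) := by
  classical
  unfold JJ at hf
  induction hf using Submodule.span_induction with
  | mem x hx =>
    obtain ⟨i, g, hg, _, rfl⟩ := hx
    refine ⟨fun j => if j = i then g else 0, fun j => ?_, ?_⟩
    · simp only
      split_ifs
      · exact hg
      · exact IsSymmetric.zero
    · rw [Finset.sum_eq_single i]
      · simp
      · intro j _ hj
        simp [hj]
      · intro h
        exact absurd (Finset.mem_univ _) h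
  | zero => exact ⟨0, fun _ => IsSymmetric.zero, by simp⟩
  | add x y _ _ hx hy =>
    obtain ⟨g, hg, rfl⟩ := hx
    obtain ⟨g', hg', rfl⟩ := hy
    refine ⟨g + g', fun i => (hg i).add (hg' i), ?_⟩
    rw [← Finset.sum_add_distrib]
    exact Finset.sum_congr rfl fun i _ => by rw [Pi.add_apply, add_mul]
  | smul r x _ hx =>
    obtain ⟨g, hg, rfl⟩ := hx
    refine ⟨r • g, fun i => IsSymmetric.smul _ (hg i), ?_⟩
    rw [Finset.smul_sum]
    exact Finset.sum_congr rfl fun i _ => by rw [Pi.smul_apply, smul_mul_assoc]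

/-- Independence of the `h_{λ'}` modulo the ideal with `a = 0` gives nonsingularity. -/
theorem nonsing_of_sep [Algebra ℚ R] [Nontrivial R]
    (h : ∀ (c : Box k m → R) (g : Fin k → MvPolynomial (Fin k) R), (∀ i, (g i).IsSymmetric) →
      ∑ l, c l • hConj k m R l.1 = ∑ i, g i * psum (Fin k) R (m + 1 + i) → c = 0) :
    Nonsing k m := by
  classical
  intro c hc
  set c' : Box k m → R := fun l => algebraMap ℚ R (c l) with hc'
  set F : MvPolynomial (Fin k) R := ∑ l, c' l • hConj k m R l.1 with hF
  have hFs : F.IsSymmetric :=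
    Subalgebra.sum_mem (symmetricSubalgebra (Fin k) R)
      (fun l _ => IsSymmetric.smul _ (hConj_isSymmetric l.1))
  have hFb : ∀ b : Box k m, coeff (ex b.1) F = 0 := by
    intro b
    have h1 := congrArg (algebraMap ℚ R) (hc b)
    rw [map_sum, map_zero] at h1
    rw [hF, coeff_sum, ← h1]
    refine Finset.sum_congr rfl fun l _ => ?_
    rw [coeff_smul, smul_eq_mul, map_mul, ← map_hConj, coeff_map]
  have h0 := coeff_eq_zero_of_box F hFs hFb
  have h1 : F ∈ JJ k m R F.totalDegree := by
    refine big_mem_JJ F hFs _ le_rfl fun w hw => ?_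
    by_contra hcon
    push Not at hcon
    exact hw (h0 w hcon)
  obtain ⟨g, hg, hFg⟩ := JJ_exists _ F h1
  have h2 := h c' g hg (by rw [← hF]; exact hFg)
  funext l
  have h3 := congrFun h2 l
  rw [hc', Pi.zero_apply] at h3
  exact (map_eq_zero_iff _ (algebraMap ℚ R).injective).mp h3

theorem nonsing_of_Q1 [Algebra ℚ R] [Nontrivial R] (n : ℕ) (hkn : k ≤ n)
    (hQ : Q1 k n R) : Nonsing k (n - k) := by
  rw [Q1_iff_FX n hkn] at hQ
  refine nonsing_of_sep (R := R) fun c g hg h => sep 0 hQ.1 hQ.2 c g hg ?_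
  rw [h]
  refine Finset.sum_congr rfl fun i _ => ?_
  unfold qq
  rw [Pi.zero_apply, sub_zero]

theorem nonsing_of_Q2 [Algebra ℚ R] [Nontrivial R] (n : ℕ)
    (hQ : Q2 k n R) : Nonsing k (n - k) := by
  classical
  refine nonsing_of_sep (R := R) fun c g hg h => ?_
  have h1 := (hQ 0 (fun i => by
    rw [Pi.zero_apply, ZeroMemClass.coe_zero, totalDegree_zero]
    omega)).1
  rw [Fintype.linearIndependent_iff] at h1
  have h2 := h1 c (by
    have h3 : ∑ l, c l • Ideal.Quotient.mk (idealJ k n R 0) (hS k n R l) =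
        Ideal.Quotient.mk (idealJ k n R 0) (∑ l, c l • hS k n R l) := by
      rw [map_sum]
      rfl
    rw [h3, Ideal.Quotient.eq_zero_iff_mem]
    unfold idealJ
    rw [Ideal.mem_span_range_iff_exists_fun]
    refine ⟨fun i => ⟨g i, hg i⟩, ?_⟩
    apply Subtype.ext
    simp only [AddSubmonoidClass.coe_finsetSum, MulMemClass.coe_mul, Pi.zero_apply, sub_zero]
    exact h.symm)
  funext l
  exact h2 l

open Classical in
theorem Q1_iff [Algebra ℚ R] [Nontrivial R] (n : ℕ) (hk : 1 ≤ k) (hkn : k ≤ n) :
    Q1 k n R ↔ (MM k (n - k)).det ≠ 0 := by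
  rw [← nonsing_iff_det]
  exact ⟨nonsing_of_Q1 n hkn, Q1_of_nonsing n hk hkn⟩

open Classical in
theorem Q2_iff [Algebra ℚ R] [Nontrivial R] (n : ℕ) (hk : 1 ≤ k) :
    Q2 k n R ↔ (MM k (n - k)).det ≠ 0 := by
  rw [← nonsing_iff_det]
  exact ⟨nonsing_of_Q2 n, Q2_of_nonsing n hk⟩

theorem nonsing_symm (h : Nonsing k m) : Nonsing m k := by
  classical
  rw [nonsing_iff_det] at h ⊢
  rwa [det_symm]

end Pool.Agent.Lib.MP_c1a8e2_al
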