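import Mathlib

set_option autoImplicit false

open MvPolynomial Finset

namespace Pool.Agent.Lib.MP_c1a8e2_al

variable {k : ℕ} {R : Type*} [CommRing R]

/-- An exponent vector as a finitely supported function. -/
noncomputable def ex (v : Fin k → ℕ) : Fin k →₀ ℕ := Finsupp.equivFunOnFinite.symm v

@[simp] theorem ex_apply (v : Fin k → ℕ) (i : Fin k) : ex v i = v i := rfl

theorem ex_coe (w : Fin k →₀ ℕ) : ex (⇑w) = w := by ext i; rfl

theorem ex_injective : Function.Injective (ex (k := k)) := fun a b h => by
  funext i
  have := DFunLike.congr_fun h i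
  simpa using this

theorem prod_map_X (s : Multiset (Fin k)) :
    (s.map (X : Fin k → MvPolynomial (Fin k) R)).prod = monomial (Multiset.toFinsupp s) 1 := by
  induction s using Multiset.induction_on with
  | empty => simp
  | cons a s ih =>
    rw [Multiset.map_cons, Multiset.prod_cons, ih, ← Multiset.singleton_add, map_add,
      Multiset.toFinsupp_singleton, X, monomial_mul, one_mul]

theorem coeff_hsymm (n : ℕ) (w : Fin k →₀ ℕ) :
    coeff w (hsymm (Fin k) R n) = if ∑ i, w i = n then 1 else 0 := by
  classical
  unfold hsymm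
  rw [coeff_sum]
  have h1 : ∀ s : Sym (Fin k) n, coeff w ((s.1.map (X : Fin k → MvPolynomial (Fin k) R)).prod) =
      if s.1 = Finsupp.toMultiset w then 1 else 0 := by
    intro s
    rw [prod_map_X, coeff_monomial]
    congr 1
    rw [eq_iff_iff]
    constructor
    · intro h
      rw [← h, Multiset.toFinsupp_toMultiset]
    · intro h
      rw [h, Finsupp.toMultiset_toFinsupp]
  rw [Finset.sum_congr rfl (fun s _ => h1 s)]
  have hc : Multiset.card (Finsupp.toMultiset w) = ∑ i, w i := by
    rw [Finsupp.card_toMultiset, Finsupp.sum_fintype _ _ (fun _ => rfl)]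
    rfl
  split_ifs with h
  · obtain ⟨t, ht⟩ : ∃ t : Sym (Fin k) n, t.1 = Finsupp.toMultiset w :=
      ⟨Sym.mk (Finsupp.toMultiset w) (by rw [hc, h]), rfl⟩
    rw [Finset.sum_eq_single t]
    · rw [if_pos ht]
    · intro s _ hs
      rw [if_neg]
      intro hs'
      exact hs (Subtype.ext (hs'.trans ht.symm))
    · intro h'
      exact absurd (Finset.mem_univ _) h'
  · refine Finset.sum_eq_zero fun s _ => ?_
    rw [if_neg]
    intro hs
    apply h
    rw [← hc, ← hs]
    exact s.2

end Pool.Agent.Lib.MP_c1a8e2_al
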