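import Mathlib

/-!
# Definitions: partitions in a box and the polynomials `h_{λ'}`
-/

set_option autoImplicit false

open MvPolynomial Finset

namespace Pool.Agent.Lib.MP_c1a8e2_al

/-- Partitions with at most `k` parts, all parts at most `m`, written as weakly decreasing
vectors of length `k` (padded with zeros): the set `P_{k,m}`. -/
abbrev Box (k m : ℕ) : Type := {l : Fin k → ℕ // Antitone l ∧ ∀ i, l i ≤ m}

/-- The part `λ'_j = #{i : λ_i ≥ j}` of the conjugate partition. -/
def conjPart {k : ℕ} (l : Fin k → ℕ) (j : ℕ) : ℕ := (Finset.univ.filter (fun i => j ≤ l i)).card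

/-- `h_{λ'} = ∏_{j ≥ 1} h_{λ'_j}` for a partition `λ` with all parts at most `m`
(the factors with `λ'_j = 0` are `h_0 = 1`). -/
noncomputable def hConj (k m : ℕ) (R : Type*) [CommRing R] (l : Fin k → ℕ) :
    MvPolynomial (Fin k) R :=
  ∏ j ∈ Finset.Icc 1 m, hsymm (Fin k) R (conjPart l j)

theorem Box.finite (k m : ℕ) : Finite (Box k m) := by
  have : Function.Injective (fun l : Box k m => fun i : Fin k =>
      (⟨l.1 i, Nat.lt_succ_of_le (l.2.2 i)⟩ : Fin (m + 1))) := by
    intro a b h
    apply Subtype.ext
    funext i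
    have := congrFun h i
    simpa using this
  exact Finite.of_injective _ this

instance (k m : ℕ) : Finite (Box k m) := Box.finite k m

noncomputable instance (k m : ℕ) : Fintype (Box k m) := Fintype.ofFinite _

theorem le_iff_conjPart {k : ℕ} (l : Fin k → ℕ) (hl : Antitone l) (i : Fin k) (j : ℕ) :
    j ≤ l i ↔ (i : ℕ) + 1 ≤ conjPart l j := by
  unfold conjPart
  constructor
  · intro h
    have h1 : Finset.Iic i ⊆ Finset.univ.filter (fun i => j ≤ l i) := by
      intro x hx
      rw [Finset.mem_Iic] at hx
      rw [Finset.mem_filter]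
      exact ⟨Finset.mem_univ _, h.trans (hl hx)⟩
    have h2 := Finset.card_le_card h1
    rwa [Fin.card_Iic] at h2
  · intro h
    by_contra hc
    have h1 : Finset.univ.filter (fun i => j ≤ l i) ⊆ Finset.Iio i := by
      intro x hx
      rw [Finset.mem_filter] at hx
      rw [Finset.mem_Iio]
      by_contra hxi
      push Not at hxi
      exact hc (hx.2.trans (hl hxi))
    have h2 := Finset.card_le_card h1
    rw [Fin.card_Iio] at h2
    omega

theorem conjPart_le {k : ℕ} (l : Fin k → ℕ) (j : ℕ) : conjPart l j ≤ k := by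
  unfold conjPart
  exact (Finset.card_le_univ _).trans (by simp)

theorem conjPart_anti {k : ℕ} (l : Fin k → ℕ) : Antitone (conjPart l) := by
  intro a b hab
  unfold conjPart
  apply Finset.card_le_card
  intro x hx
  rw [Finset.mem_filter] at hx ⊢
  exact ⟨hx.1, hab.trans hx.2⟩

end Pool.Agent.Lib.MP_c1a8e2_al
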