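import Pool.Agent.Lib.MP_c1a8e2_al.h30.Riesz
import Pool.Agent.Lib.MP_c1a8e2_al.h30.Defs

set_option autoImplicit false

open MvPolynomial Finset

namespace Pool.Agent.Lib.MP_c1a8e2_al

variable {k m : ℕ}

/-- The power sums in terms of the complete homogeneous polynomials. -/
noncomputable def QQ : ℕ → MvPolynomial ℕ ℚ
  | n => C ((n : ℚ) + 1) * X n - ∑ r : Fin n, QQ r * X (n - 1 - r)
termination_by n => n
decreasing_by exact r.2

theorem QQ_eq (n : ℕ) :
    C ((n : ℚ) + 1) * X n = QQ n + ∑ r ∈ range n, QQ r * X (n - 1 - r) := by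
  rw [QQ, Finset.sum_range]
  ring

/-- `h_0 = 1`, `h_{n+1} = X n` -/
noncomputable def YY : ℕ → MvPolynomial ℕ ℚ
  | 0 => 1
  | (n + 1) => X n

/-- The substitution which sends `h_n` to the variable `Y_n`. -/
noncomputable def psi : MvPolynomial ℕ ℚ →ₐ[ℚ] MvPolynomial ℕ ℚ := aeval QQ

theorem psi_HH (n : ℕ) : psi (HH n) = YY n := by
  induction n using Nat.strong_induction_on with
  | _ n ih =>
    rcases n with _ | n
    · rw [HH_zero, map_one, YY]
    · apply mul_left_cancel₀ (C_ne n)
      have h1 : C ((n : ℚ) + 1) * psi (HH (n + 1)) = psi (C ((n : ℚ) + 1) * HH (n + 1)) := by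
        rw [map_mul]
        congr 1
        exact (psi.commutes _).symm
      rw [h1, HH_succ, map_sum, YY, QQ_eq, Finset.sum_range_succ, add_comm]
      congr 1
      · rw [map_mul, Nat.sub_self, HH_zero, map_one, mul_one]
        unfold psi
        rw [aeval_X]
      · refine Finset.sum_congr rfl fun r hr => ?_
        rw [Finset.mem_range] at hr
        rw [map_mul, ih (n - r) (by omega)]
        have h2 : n - r = (n - 1 - r) + 1 := by omega
        rw [h2, YY]
        unfold psi
        rw [aeval_X]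

/-- exponent of `Y_c` -/
noncomputable def yexp (c : ℕ) : ℕ →₀ ℕ := if c = 0 then 0 else Finsupp.single (c - 1) 1

theorem YY_eq (c : ℕ) : YY c = monomial (yexp c) 1 := by
  rcases c with _ | c
  · rw [YY, yexp, if_pos rfl]
    rfl
  · rw [YY, yexp, if_neg (by omega), Nat.add_sub_cancel]
    rfl

/-- exponent of `∏ Y_{λ'_j}` -/
noncomputable def EE (m : ℕ) (l : Fin k → ℕ) : ℕ →₀ ℕ := ∑ j ∈ Icc 1 m, yexp (conjPart l j)

theorem prod_YY (l : Fin k → ℕ) :
    ∏ j ∈ Icc 1 m, YY (conjPart l j) = monomial (EE m l) 1 := by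
  classical
  unfold EE
  induction (Icc 1 m) using Finset.induction_on with
  | empty => simp
  | insert a s ha ih =>
    rw [Finset.prod_insert ha, Finset.sum_insert ha, ih, YY_eq, monomial_mul, one_mul]

theorem EE_apply (l : Fin k → ℕ) (i : ℕ) :
    EE m l i = ((Icc 1 m).filter (fun j => conjPart l j = i + 1)).card := by
  classical
  unfold EE
  rw [Finsupp.finsetSum_apply, Finset.card_filter]
  refine Finset.sum_congr rfl fun j _ => ?_
  unfold yexp
  split_ifs with h1 h2 h2
  · omega
  · rfl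
  · rw [Finsupp.single_apply, if_pos (by omega)]
  · rw [Finsupp.single_apply, if_neg (by omega)]

theorem EE_injective (l l' : Fin k → ℕ) (hl : Antitone l) (hl' : Antitone l')
    (hm : ∀ i, l i ≤ m) (hm' : ∀ i, l' i ≤ m) (h : EE m l = EE m l') : l = l' := by
  classical
  have key : ∀ (l : Fin k → ℕ), Antitone l → (∀ i, l i ≤ m) → ∀ i : Fin k,
      l i = ∑ t ∈ Ico (i : ℕ) k, EE m l t := by
    intro l hl hm i
    have h1 : ∀ t ∈ Ico (i : ℕ) k, EE m l t =
        ((Icc 1 m).filter (fun j => conjPart l j = t + 1)).card := fun t _ => EE_apply l t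
    rw [Finset.sum_congr rfl h1, ← Finset.card_biUnion]
    · have h2 : ((Ico (i : ℕ) k).biUnion fun t =>
          (Icc 1 m).filter (fun j => conjPart l j = t + 1)) = Icc 1 (l i) := by
        ext j
        simp only [Finset.mem_biUnion, Finset.mem_Ico, Finset.mem_filter, Finset.mem_Icc]
        constructor
        · rintro ⟨t, ht, hj, hc⟩
          refine ⟨hj.1, ?_⟩
          rw [le_iff_conjPart l hl]
          omega
        · intro hj
          have h3 := (le_iff_conjPart l hl i j).mp hj.2
          have h4 := conjPart_le l j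
          refine ⟨conjPart l j - 1, ⟨by omega, by omega⟩, ⟨hj.1, hj.2.trans (hm i)⟩, by omega⟩
      rw [h2, Nat.card_Icc]
      omega
    · intro a _ b _ hab
      rw [Function.onFun, Finset.disjoint_left]
      intro j hj hj'
      rw [Finset.mem_filter] at hj hj'
      omega
  funext i
  rw [key l hl hm i, key l' hl' hm' i, h]

/-- The matrix of the coefficients of `h_{λ'}` at the monomials `x^β`, `λ, β ∈ P_{k,m}`, is
nonsingular. -/
def Nonsing (k m : ℕ) : Prop :=
  ∀ c : Box k m → ℚ, (∀ b : Box k m, ∑ l, c l * coeff (ex b.1) (hConj k m ℚ l.1) = 0) → c = 0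

theorem nonsing_self (k : ℕ) : Nonsing k k := by
  classical
  intro c hc
  set f : MvPolynomial ℕ ℚ := ∑ l : Box k k, C (c l) * ∏ j ∈ Icc 1 k, HH (conjPart l.1 j) with hf
  have hev : ev k f = ∑ l : Box k k, C (c l) * hConj k k ℚ l.1 := by
    rw [hf, map_sum]
    refine Finset.sum_congr rfl fun l _ => ?_
    rw [map_mul, map_prod]
    congr 1
    · exact (ev k).commutes _
    · unfold hConj
      exact Finset.prod_congr rfl fun j _ => ev_HH _
  have hprod : ∀ l : Box k k, ∏ j ∈ Icc 1 k, HH (conjPart l.1 j) =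
      ∏ i : Fin k, HH (ex (fun i : Fin k => conjPart l.1 (i + 1)) i) := by
    intro l
    simp only [ex_apply]
    rw [Fin.prod_univ_eq_prod_range (fun i => HH (conjPart l.1 (i + 1))) k]
    rw [Finset.range_eq_Ico, Finset.prod_Ico_add' (fun i => HH (conjPart l.1 i)) 0 k 1]
    rfl
  have hip : ip f f = 0 := by
    conv_lhs => rw [hf]
    rw [ip_sum_left]
    refine Finset.sum_eq_zero fun l _ => ?_
    rw [ip_C_mul_left, hprod l, riesz, ← hf, hev]
    have hb : Antitone (fun i : Fin k => conjPart l.1 ((i : ℕ) + 1)) ∧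
        ∀ i : Fin k, conjPart l.1 ((i : ℕ) + 1) ≤ k := by
      refine ⟨fun a b hab => conjPart_anti l.1 ?_, fun i => conjPart_le _ _⟩
      have : (a : ℕ) ≤ b := hab
      omega
    have h1 := hc ⟨fun i : Fin k => conjPart l.1 ((i : ℕ) + 1), hb⟩
    rw [coeff_sum]
    simp only [coeff_C_mul]
    rw [h1, mul_zero]
  have hf0 : f = 0 := eq_zero_of_ip_self f hip
  have hpsi : psi f = ∑ l : Box k k, C (c l) * monomial (EE k l.1) 1 := by
    rw [hf, map_sum]
    refine Finset.sum_congr rfl fun l _ => ?_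
    rw [map_mul, map_prod, ← prod_YY]
    congr 1
    · exact psi.commutes _
    · exact Finset.prod_congr rfl fun j _ => psi_HH _
  rw [hf0, map_zero] at hpsi
  funext l0
  have h2 := congrArg (coeff (EE k l0.1)) hpsi.symm
  rw [coeff_zero, coeff_sum] at h2
  rw [Finset.sum_eq_single l0] at h2
  · rw [coeff_C_mul, coeff_monomial, if_pos rfl, mul_one] at h2
    exact h2
  · intro l _ hne
    rw [coeff_C_mul, coeff_monomial, if_neg, mul_zero]
    intro he
    apply hne
    exact Subtype.ext (EE_injective l.1 l0.1 l.2.1 l0.2.1 l.2.2 l0.2.2 he)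
  · intro h
    exact absurd (Finset.mem_univ _) h

end Pool.Agent.Lib.MP_c1a8e2_al
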