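import Pool.Agent.Lib.MP_c1a8e2_al.h30.Ideal
import Pool.Agent.Lib.MP_c1a8e2_al.h30.Indep

/-!
# Every symmetric polynomial is a combination of the `h_{λ'}` modulo `p_{m+1}, …, p_{m+k}`
-/

set_option autoImplicit false

open MvPolynomial Finset

namespace Pool.Agent.Lib.MP_c1a8e2_al

variable {k m : ℕ} {R : Type*} [CommRing R]

theorem factorial_smul_eq (f : MvPolynomial (Fin k) R) (hf : f.IsSymmetric) :
    (k.factorial : R) • f = ∑ w ∈ f.support, coeff w f • symA R (⇑w) := by
  have h1 : ∑ σ : Equiv.Perm (Fin k), rename σ f = (k.factorial : R) • f := by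
    rw [Finset.sum_congr rfl (fun σ _ => hf σ), Finset.sum_const, Finset.card_univ,
      Fintype.card_perm, Fintype.card_fin, Nat.cast_smul_eq_nsmul]
  rw [← h1]
  have h2 : ∀ σ : Equiv.Perm (Fin k), rename σ f =
      ∑ w ∈ f.support, monomial (ex (⇑w ∘ σ.symm)) (coeff w f) := by
    intro σ
    conv_lhs => rw [f.as_sum]
    rw [map_sum]
    refine Finset.sum_congr rfl fun w _ => ?_
    rw [rename_monomial]
    congr 1
    conv_lhs => rw [← ex_coe w, ex_mapDomain]
  rw [Finset.sum_congr rfl (fun σ _ => h2 σ), Finset.sum_comm]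
  refine Finset.sum_congr rfl fun w _ => ?_
  unfold symA
  rw [Finset.smul_sum]
  refine Fintype.sum_equiv (Equiv.inv _) _ _ fun σ => ?_
  rw [smul_monomial, smul_eq_mul, mul_one]
  rfl

theorem factorial_unit [Algebra ℚ R] (n : ℕ) :
    ∃ u : R, u * (n.factorial : R) = 1 := by
  refine ⟨algebraMap ℚ R ((n.factorial : ℚ)⁻¹), ?_⟩
  have h : (n.factorial : R) = algebraMap ℚ R (n.factorial : ℚ) := by rw [map_natCast]
  rw [h, ← map_mul, inv_mul_cancel₀ (by exact_mod_cast n.factorial_ne_zero), map_one]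

theorem mem_of_symA [Algebra ℚ R] (M : Submodule R (MvPolynomial (Fin k) R))
    (f : MvPolynomial (Fin k) R) (hf : f.IsSymmetric)
    (h : ∀ w : Fin k →₀ ℕ, coeff w f ≠ 0 → symA R (⇑w) ∈ M) : f ∈ M := by
  obtain ⟨u, hu⟩ := factorial_unit (R := R) k
  have h1 : f = u • ((k.factorial : R) • f) := by rw [smul_smul, hu, one_smul]
  rw [h1, factorial_smul_eq f hf]
  refine Submodule.smul_mem _ _ (Submodule.sum_mem _ fun w hw => Submodule.smul_mem _ _ ?_)
  exact h w (mem_support_iff.mp hw)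

theorem big_mem_JJ [Algebra ℚ R] (f : MvPolynomial (Fin k) R) (hf : f.IsSymmetric) (D : ℕ)
    (hD : f.totalDegree ≤ D) (h : ∀ w : Fin k →₀ ℕ, coeff w f ≠ 0 → ∃ i, m < w i) :
    f ∈ JJ k m R D := by
  refine mem_of_symA _ f hf fun w hw => ?_
  obtain ⟨i, hi⟩ := h w hw
  exact JJ_mono ((totalDegree_le_iff f D).mp hD w hw) (symA_mem_JJ _ (⇑w) le_rfl i hi)

theorem coeff_comp_perm (f : MvPolynomial (Fin k) R) (hf : f.IsSymmetric) (v : Fin k → ℕ)
    (σ : Equiv.Perm (Fin k)) : coeff (ex (v ∘ σ)) f = coeff (ex v) f := by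
  conv_lhs => rw [← hf σ.symm]
  have h : ex (v ∘ σ) = (ex v).mapDomain σ.symm := by
    rw [ex_mapDomain, Equiv.symm_symm]
  rw [h, coeff_rename_mapDomain _ σ.symm.injective]

theorem coeff_eq_zero_of_box (f : MvPolynomial (Fin k) R) (hf : f.IsSymmetric)
    (h : ∀ b : Box k m, coeff (ex b.1) f = 0) (w : Fin k →₀ ℕ) (hw : ∀ i, w i ≤ m) :
    coeff w f = 0 := by
  set g : Fin k → ℕ := fun i => m - w i with hg
  have hmono := Tuple.monotone_sort g
  have hb : Antitone (⇑w ∘ Tuple.sort g) ∧ ∀ i, (⇑w ∘ Tuple.sort g) i ≤ m := by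
    refine ⟨fun a b hab => ?_, fun i => hw _⟩
    have h1 : g (Tuple.sort g a) ≤ g (Tuple.sort g b) := hmono hab
    have h2 := hw (Tuple.sort g a)
    have h3 := hw (Tuple.sort g b)
    have h4 : g (Tuple.sort g a) = m - w (Tuple.sort g a) := rfl
    have h5 : g (Tuple.sort g b) = m - w (Tuple.sort g b) := rfl
    show w (Tuple.sort g b) ≤ w (Tuple.sort g a)
    omega
  have h1 := h ⟨_, hb⟩
  have h2 := coeff_comp_perm f hf (⇑w) (Tuple.sort g)
  rw [ex_coe] at h2
  rw [← h2]
  exact h1

/-! ### The polynomials `h_{λ'}` -/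

theorem hConj_isSymmetric (l : Fin k → ℕ) : (hConj k m R l).IsSymmetric := by
  unfold hConj
  exact Subalgebra.prod_mem (symmetricSubalgebra (Fin k) R)
    (fun j _ => hsymm_isSymmetric (Fin k) R (conjPart l j))

theorem sum_conjPart (l : Fin k → ℕ) (hl : ∀ i, l i ≤ m) :
    ∑ j ∈ Icc 1 m, conjPart l j = ∑ i, l i := by
  unfold conjPart
  simp only [Finset.card_filter]
  rw [Finset.sum_comm]
  refine Finset.sum_congr rfl fun i _ => ?_
  rw [← Finset.card_filter]
  have h : (Icc 1 m).filter (fun j => j ≤ l i) = Icc 1 (l i) := by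
    ext j
    simp only [Finset.mem_filter, Finset.mem_Icc]
    have := hl i
    omega
  rw [h, Nat.card_Icc]
  omega

theorem coeff_prod_hom {ι : Type*} (s : Finset ι) (f : ι → MvPolynomial (Fin k) R) (d : ι → ℕ)
    (h : ∀ i ∈ s, ∀ w : Fin k →₀ ℕ, coeff w (f i) ≠ 0 → ∑ j, w j = d i) (w : Fin k →₀ ℕ)
    (hw : coeff w (∏ i ∈ s, f i) ≠ 0) : ∑ j, w j = ∑ i ∈ s, d i := by
  classical
  induction s using Finset.induction_on generalizing w with
  | empty =>
    rw [Finset.prod_empty, coeff_one] at hw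
    by_cases h0 : 0 = w
    · rw [← h0]; simp
    · rw [if_neg h0] at hw
      exact absurd rfl hw
  | insert a s ha ih =>
    rw [Finset.prod_insert ha, coeff_mul] at hw
    obtain ⟨x, hx, hx0⟩ := Finset.exists_ne_zero_of_sum_ne_zero hw
    rw [Finset.HasAntidiagonal.mem_antidiagonal] at hx
    have h1 := h a (Finset.mem_insert_self _ _) x.1 (left_ne_zero_of_mul hx0)
    have h2 := ih (fun i hi => h i (Finset.mem_insert_of_mem hi)) x.2 (right_ne_zero_of_mul hx0)
    rw [Finset.sum_insert ha, ← h1, ← h2, ← hx, ← Finset.sum_add_distrib]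
    rfl

theorem coeff_hConj (l : Fin k → ℕ) (hl : ∀ i, l i ≤ m) (w : Fin k →₀ ℕ)
    (hw : coeff w (hConj k m R l) ≠ 0) : ∑ j, w j = ∑ i, l i := by
  rw [← sum_conjPart l hl]
  refine coeff_prod_hom _ _ _ (fun j _ w hw => ?_) w hw
  rw [coeff_hsymm] at hw
  by_contra hc
  rw [if_neg hc] at hw
  exact hw rfl

theorem totalDegree_hConj_le (l : Fin k → ℕ) (hl : ∀ i, l i ≤ m) :
    (hConj k m R l).totalDegree ≤ ∑ i, l i := by
  rw [totalDegree_le_iff]
  intro w hw
  exact (coeff_hConj l hl w hw).le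

theorem map_hConj [Algebra ℚ R] (l : Fin k → ℕ) :
    map (algebraMap ℚ R) (hConj k m ℚ l) = hConj k m R l := by
  unfold hConj
  rw [map_prod]
  exact Finset.prod_congr rfl fun j _ => map_hsymm _ _ _ _

theorem map_symA [Algebra ℚ R] (v : Fin k → ℕ) :
    map (algebraMap ℚ R) (symA ℚ v) = symA R v := by
  unfold symA
  rw [map_sum]
  refine Finset.sum_congr rfl fun σ _ => ?_
  rw [map_monomial, map_one]

theorem coeff_symA_ne (v : Fin k → ℕ) (w : Fin k →₀ ℕ) (hw : coeff w (symA R v) ≠ 0) :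
    ∑ j, w j = ∑ i, v i := by
  classical
  unfold symA at hw
  rw [coeff_sum] at hw
  obtain ⟨σ, _, h⟩ := Finset.exists_ne_zero_of_sum_ne_zero hw
  rw [coeff_monomial] at h
  by_cases h0 : ex (v ∘ σ) = w
  · rw [← h0]
    simp only [ex_apply, Function.comp_apply]
    exact Equiv.sum_comp σ v
  · rw [if_neg h0] at h
    exact absurd rfl h

theorem Nonsing.surj (hN : Nonsing k m) (t : Box k m → ℚ) :
    ∃ c : Box k m → ℚ, ∀ b : Box k m, ∑ l, c l * coeff (ex b.1) (hConj k m ℚ l.1) = t b := by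
  set T : (Box k m → ℚ) →ₗ[ℚ] (Box k m → ℚ) :=
    { toFun := fun c b => ∑ l, c l * coeff (ex b.1) (hConj k m ℚ l.1)
      map_add' := by
        intro c c'
        funext b
        simp only [Pi.add_apply, add_mul, Finset.sum_add_distrib]
      map_smul' := by
        intro a c
        funext b
        simp only [Pi.smul_apply, smul_eq_mul, RingHom.id_apply, Finset.mul_sum, mul_assoc] }
    with hT
  have hinj : Function.Injective T := by
    rw [← LinearMap.ker_eq_bot, LinearMap.ker_eq_bot']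
    intro c hc
    exact hN c (fun b => congrFun hc b)
  have hsurj : Function.Surjective T := LinearMap.injective_iff_surjective.mp hinj
  obtain ⟨c, hc⟩ := hsurj t
  exact ⟨c, fun b => congrFun hc b⟩

theorem small_mem [Algebra ℚ R] (hN : Nonsing k m) (v : Fin k → ℕ) :
    ∃ c : Box k m → ℚ, (∀ l, c l ≠ 0 → ∑ i, l.1 i = ∑ i, v i) ∧
      symA R v - ∑ l : Box k m, algebraMap ℚ R (c l) • hConj k m R l.1 ∈ JJ k m R (∑ i, v i) := by
  classical
  obtain ⟨c, hc⟩ := hN.surj (fun b => coeff (ex b.1) (symA ℚ v))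
  refine ⟨fun l => if ∑ i, l.1 i = ∑ i, v i then c l else 0, fun l hl => ?_, ?_⟩
  · by_contra h
    exact hl (if_neg h)
  · have hcoef : ∀ b : Box k m, coeff (ex b.1) (symA ℚ v - ∑ l : Box k m,
        (if ∑ i, l.1 i = ∑ i, v i then c l else 0) • hConj k m ℚ l.1) = 0 := by
      intro b
      rw [coeff_sub, coeff_sum, sub_eq_zero]
      by_cases hb : ∑ i, b.1 i = ∑ i, v i
      · rw [← hc b]
        refine Finset.sum_congr rfl fun l _ => ?_
        rw [coeff_smul, smul_eq_mul]
        by_cases hl : ∑ i, l.1 i = ∑ i, v i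
        · rw [if_pos hl]
        · rw [if_neg hl, zero_mul]
          have : coeff (ex b.1) (hConj k m ℚ l.1) = 0 := by
            by_contra hne
            have h1 := coeff_hConj l.1 l.2.2 _ hne
            simp only [ex_apply] at h1
            omega
          rw [this, mul_zero]
      · have h1 : coeff (ex b.1) (symA ℚ v) = 0 := by
          by_contra hne
          have h1 := coeff_symA_ne v _ hne
          simp only [ex_apply] at h1
          omega
        rw [h1]
        symm
        refine Finset.sum_eq_zero fun l _ => ?_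
        rw [coeff_smul, smul_eq_mul]
        by_cases hl : ∑ i, l.1 i = ∑ i, v i
        · have : coeff (ex b.1) (hConj k m ℚ l.1) = 0 := by
            by_contra hne
            have h1 := coeff_hConj l.1 l.2.2 _ hne
            simp only [ex_apply] at h1
            omega
          rw [this, mul_zero]
        · rw [if_neg hl, zero_mul]
    set rQ : MvPolynomial (Fin k) ℚ := symA ℚ v - ∑ l : Box k m,
        (if ∑ i, l.1 i = ∑ i, v i then c l else 0) • hConj k m ℚ l.1 with hrQ
    have hmap : symA R v - ∑ l : Box k m,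
        algebraMap ℚ R (if ∑ i, l.1 i = ∑ i, v i then c l else 0) • hConj k m R l.1 =
        map (algebraMap ℚ R) rQ := by
      rw [hrQ, map_sub, map_symA, map_sum]
      congr 1
      refine Finset.sum_congr rfl fun l _ => ?_
      rw [smul_eq_C_mul, smul_eq_C_mul, map_mul, map_C, map_hConj]
    rw [hmap]
    have hsymQ : rQ.IsSymmetric := by
      rw [hrQ]
      refine IsSymmetric.sub (symA_isSymmetric v) ?_
      exact Subalgebra.sum_mem (symmetricSubalgebra (Fin k) ℚ)
        (fun l _ => IsSymmetric.smul _ (hConj_isSymmetric l.1))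
    have hcoefQ : ∀ w : Fin k →₀ ℕ, coeff w rQ ≠ 0 → ∑ i, w i = ∑ i, v i := by
      intro w hw
      rw [hrQ, coeff_sub, coeff_sum] at hw
      by_cases h1 : coeff w (symA ℚ v) = 0
      · rw [h1, zero_sub, neg_ne_zero] at hw
        obtain ⟨l, _, hl⟩ := Finset.exists_ne_zero_of_sum_ne_zero hw
        rw [coeff_smul, smul_eq_mul] at hl
        have h2 := coeff_hConj l.1 l.2.2 w (right_ne_zero_of_mul hl)
        have h3 := left_ne_zero_of_mul hl
        by_cases h4 : ∑ i, l.1 i = ∑ i, v i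
        · omega
        · rw [if_neg h4] at h3
          exact absurd rfl h3
      · exact coeff_symA_ne v w h1
    refine big_mem_JJ _ (hsymQ.map _) _ ?_ ?_
    · rw [totalDegree_le_iff]
      intro w hw
      rw [coeff_map] at hw
      exact (hcoefQ w (fun h => hw (by rw [h, map_zero]))).le
    · intro w hw
      rw [coeff_map] at hw
      by_contra hc'
      push Not at hc'
      apply hw
      rw [coeff_eq_zero_of_box rQ hsymQ hcoef w hc', map_zero]

/-- The span of the `h_{λ'}` with `|λ| ≤ D`. -/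
noncomputable def SP (k m : ℕ) (R : Type*) [CommRing R] (D : ℕ) :
    Submodule R (MvPolynomial (Fin k) R) :=
  Submodule.span R {f | ∃ l : Box k m, ∑ i, l.1 i ≤ D ∧ f = hConj k m R l.1}

theorem mem_SP_sup_JJ [Algebra ℚ R] (hN : Nonsing k m) (f : MvPolynomial (Fin k) R)
    (hf : f.IsSymmetric) (D : ℕ) (hD : f.totalDegree ≤ D) : f ∈ SP k m R D ⊔ JJ k m R D := by
  refine mem_of_symA _ f hf fun w hw => ?_
  have hwD := (totalDegree_le_iff f D).mp hD w hw
  obtain ⟨c, hc, hmem⟩ := small_mem (R := R) hN (⇑w)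
  have h1 : symA R (⇑w) = (∑ l : Box k m, algebraMap ℚ R (c l) • hConj k m R l.1) +
      (symA R (⇑w) - ∑ l : Box k m, algebraMap ℚ R (c l) • hConj k m R l.1) := by ring
  rw [h1]
  refine Submodule.add_mem_sup (Submodule.sum_mem _ fun l _ => ?_) (JJ_mono hwD hmem)
  by_cases hcl : c l = 0
  · rw [hcl, map_zero, zero_smul]
    exact Submodule.zero_mem _
  · refine Submodule.smul_mem _ _ (Submodule.subset_span ⟨l, ?_, rfl⟩)
    rw [hc l hcl]
    exact hwD

end Pool.Agent.Lib.MP_c1a8e2_al
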