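import Pool.Agent.Lib.MP_c1a8e2_al.h30.Basic

set_option autoImplicit false

open MvPolynomial Finset

namespace Pool.Agent.Lib.MP_c1a8e2_al

/-! ### The inner product on polynomials in the power sums -/

/-- `∏ r, (r + 1) ^ (a r) * (a r)!` -/
noncomputable def zw (a : ℕ →₀ ℕ) : ℚ := a.prod fun r n => ((r : ℚ) + 1) ^ n * (n.factorial : ℚ)

theorem zw_pos (a : ℕ →₀ ℕ) : 0 < zw a :=
  Finset.prod_pos fun r _ => by positivity

theorem zw_zero : zw 0 = 1 := by simp [zw]

theorem zw_add_single (a : ℕ →₀ ℕ) (r : ℕ) :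
    zw (a + Finsupp.single r 1) = zw a * (((r : ℚ) + 1) * ((a r : ℚ) + 1)) := by
  classical
  have h : ∀ b : ℕ →₀ ℕ, ∀ s : Finset ℕ, b.support ⊆ s →
      zw b = ∏ r ∈ s, (((r : ℚ) + 1) ^ (b r) * ((b r).factorial : ℚ)) := by
    intro b s hs
    unfold zw
    rw [Finsupp.prod_of_support_subset _ hs]
    intro i _
    simp
  set s : Finset ℕ := insert r (a.support ∪ (a + Finsupp.single r 1).support) with hs
  rw [h a s (by intro x hx; rw [hs]; simp at hx ⊢; tauto),
    h (a + Finsupp.single r 1) s (by intro x hx; rw [hs]; simp at hx ⊢; tauto)]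
  have hr : r ∈ s := Finset.mem_insert_self _ _
  rw [← Finset.mul_prod_erase s _ hr, ← Finset.mul_prod_erase s _ hr]
  have h2 : ∏ x ∈ s.erase r, (((x : ℚ) + 1) ^ ((a + Finsupp.single r 1 : ℕ →₀ ℕ) x) *
      (((a + Finsupp.single r 1 : ℕ →₀ ℕ) x).factorial : ℚ)) =
      ∏ x ∈ s.erase r, (((x : ℚ) + 1) ^ (a x) * ((a x).factorial : ℚ)) := by
    refine Finset.prod_congr rfl fun x hx => ?_
    have hne : x ≠ r := Finset.ne_of_mem_erase hx
    rw [Finsupp.add_apply, Finsupp.single_apply, if_neg (Ne.symm hne), add_zero]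
  rw [h2]
  rw [Finsupp.add_apply, Finsupp.single_apply, if_pos rfl, pow_succ, Nat.factorial_succ]
  push_cast
  ring

/-- The inner product `⟨f, g⟩ = ∑ₐ z_a f_a g_a`, linear in the second argument by construction. -/
noncomputable def ip (g : MvPolynomial ℕ ℚ) : MvPolynomial ℕ ℚ →ₗ[ℚ] ℚ :=
  (basisMonomials ℕ ℚ).constr ℚ (fun a => zw a * coeff a g)

theorem ip_monomial (g : MvPolynomial ℕ ℚ) (a : ℕ →₀ ℕ) (c : ℚ) :
    ip g (monomial a c) = c * (zw a * coeff a g) := by
  have h1 : (monomial a c : MvPolynomial ℕ ℚ) = c • (basisMonomials ℕ ℚ a) := by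
    rw [coe_basisMonomials, smul_monomial, smul_eq_mul, mul_one]
  rw [h1, map_smul, smul_eq_mul]
  unfold ip
  rw [Module.Basis.constr_basis]

theorem ip_eq_sum (g f : MvPolynomial ℕ ℚ) :
    ip g f = ∑ a ∈ f.support, coeff a f * (zw a * coeff a g) := by
  conv_lhs => rw [f.as_sum]
  rw [map_sum]
  exact Finset.sum_congr rfl fun a _ => ip_monomial _ _ _

theorem eq_zero_of_ip_self (f : MvPolynomial ℕ ℚ) (h : ip f f = 0) : f = 0 := by
  rw [ip_eq_sum] at h
  have h0 : ∀ a ∈ f.support, 0 ≤ coeff a f * (zw a * coeff a f) := by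
    intro a _
    have := zw_pos a
    nlinarith [mul_nonneg this.le (mul_self_nonneg (coeff a f))]
  have h1 := (Finset.sum_eq_zero_iff_of_nonneg h0).mp h
  by_contra hf
  obtain ⟨a, ha⟩ := Finset.nonempty_iff_ne_empty.mpr (fun hh => hf (support_eq_empty.mp hh))
  have h2 := h1 a ha
  have h3 : coeff a f ≠ 0 := mem_support_iff.mp ha
  have h4 := zw_pos a
  rcases mul_eq_zero.mp h2 with h5 | h5
  · exact h3 h5
  · rcases mul_eq_zero.mp h5 with h6 | h6
    · exact h4.ne' h6
    · exact h3 h6

theorem ip_add_left (g g' f : MvPolynomial ℕ ℚ) : ip (g + g') f = ip g f + ip g' f := by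
  rw [ip_eq_sum, ip_eq_sum, ip_eq_sum, ← Finset.sum_add_distrib]
  refine Finset.sum_congr rfl fun a _ => ?_
  rw [coeff_add]
  ring

theorem ip_C_mul_left (c : ℚ) (g f : MvPolynomial ℕ ℚ) : ip (C c * g) f = c * ip g f := by
  rw [ip_eq_sum, ip_eq_sum, Finset.mul_sum]
  refine Finset.sum_congr rfl fun a _ => ?_
  rw [coeff_C_mul]
  ring

theorem ip_zero_left (f : MvPolynomial ℕ ℚ) : ip 0 f = 0 := by
  rw [ip_eq_sum]
  simp

theorem ip_sum_left {ι : Type*} (s : Finset ι) (g : ι → MvPolynomial ℕ ℚ) (f : MvPolynomial ℕ ℚ) :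
    ip (∑ i ∈ s, g i) f = ∑ i ∈ s, ip (g i) f := by
  classical
  induction s using Finset.induction_on with
  | empty => simp [ip_zero_left]
  | insert a s ha ih => rw [Finset.sum_insert ha, Finset.sum_insert ha, ip_add_left, ih]

theorem ip_mul_X (g f : MvPolynomial ℕ ℚ) (r : ℕ) :
    ip g (f * X r) = ip (C ((r : ℚ) + 1) * pderiv r g) f := by
  induction f using MvPolynomial.induction_on' with
  | monomial a c =>
    rw [X, monomial_mul, mul_one, ip_monomial, ip_monomial, zw_add_single, coeff_C_mul,
      coeff_pderiv]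
    ring
  | add p q hp hq => rw [add_mul, map_add, map_add, hp, hq]

/-! ### The complete homogeneous polynomials in terms of the power sums -/

/-- The complete homogeneous symmetric functions as polynomials in the power sums
(`X r` stands for `p_{r+1}`). -/
noncomputable def HH : ℕ → MvPolynomial ℕ ℚ
  | 0 => 1
  | (n + 1) => C (1 / ((n : ℚ) + 1)) * ∑ r : Fin (n + 1), X (r : ℕ) * HH (n - r)

theorem HH_zero : HH 0 = 1 := by rw [HH]

theorem HH_succ (n : ℕ) :
    C ((n : ℚ) + 1) * HH (n + 1) = ∑ r ∈ range (n + 1), X r * HH (n - r) := by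
  rw [HH, ← mul_assoc, ← C_mul, Finset.sum_range]
  have : ((n : ℚ) + 1) * (1 / ((n : ℚ) + 1)) = 1 := by
    field_simp
  rw [this, C_1, one_mul]

theorem C_ne (n : ℕ) : (C ((n : ℚ) + 1) : MvPolynomial ℕ ℚ) ≠ 0 := by
  rw [Ne, C_eq_zero]
  positivity

theorem pderiv_HH (r n : ℕ) :
    C ((r : ℚ) + 1) * pderiv r (HH n) = if r + 1 ≤ n then HH (n - (r + 1)) else 0 := by
  induction n using Nat.strong_induction_on with
  | _ n ih =>
    rcases n with _ | n
    · rw [HH_zero, pderiv_one, mul_zero, if_neg (by omega)]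
    · apply mul_left_cancel₀ (C_ne n)
      have h1 : C ((n : ℚ) + 1) * (C ((r : ℚ) + 1) * pderiv r (HH (n + 1))) =
          C ((r : ℚ) + 1) * pderiv r (C ((n : ℚ) + 1) * HH (n + 1)) := by
        rw [pderiv_C_mul]
        ring
      rw [h1, HH_succ, map_sum, Finset.mul_sum]
      have h2 : ∀ j ∈ range (n + 1), C ((r : ℚ) + 1) * pderiv r (X j * HH (n - j)) =
          C ((r : ℚ) + 1) * (if j = r then HH (n - r) else 0) +
            X j * (if r + 1 ≤ n - j then HH (n - j - (r + 1)) else 0) := by
        intro j hj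
        rw [Finset.mem_range] at hj
        rw [pderiv_mul, mul_add, ← ih (n - j) (by omega)]
        congr 1
        · by_cases hjr : j = r
          · subst hjr
            rw [pderiv_X_self, one_mul, if_pos rfl]
          · rw [pderiv_X_of_ne hjr, zero_mul, if_neg hjr]
        · ring
      rw [Finset.sum_congr rfl h2, Finset.sum_add_distrib, ← Finset.mul_sum]
      by_cases hr : r + 1 ≤ n + 1
      · rw [if_pos hr]
        have h3 : (∑ j ∈ range (n + 1), if j = r then HH (n - r) else 0) = HH (n - r) := by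
          rw [Finset.sum_ite_eq' (range (n + 1)) r]
          rw [if_pos (Finset.mem_range.mpr (by omega))]
        rw [h3]
        have h5 : n + 1 - (r + 1) = n - r := by omega
        rw [h5]
        rcases Nat.eq_zero_or_pos (n - r) with h0 | h0
        · have hnr : n = r := by omega
          have h4 : (∑ j ∈ range (n + 1),
              (X j * if r + 1 ≤ n - j then HH (n - j - (r + 1)) else 0 : MvPolynomial ℕ ℚ)) = 0 := by
            refine Finset.sum_eq_zero fun j _ => ?_
            rw [if_neg (by omega), mul_zero]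
          rw [h4, add_zero, hnr]
        · obtain ⟨t, ht⟩ : ∃ t, n - r = t + 1 := ⟨n - r - 1, by omega⟩
          have h4 : (∑ j ∈ range (n + 1),
              (X j * if r + 1 ≤ n - j then HH (n - j - (r + 1)) else 0 : MvPolynomial ℕ ℚ)) =
              ∑ j ∈ range (t + 1), X j * HH (t - j) := by
            symm
            rw [← Finset.sum_subset (s₁ := range (t + 1)) (s₂ := range (n + 1))]
            · refine Finset.sum_congr rfl fun j hj => ?_
              rw [Finset.mem_range] at hj
              rw [if_pos (by omega)]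
              congr 2
              omega
            · intro x hx
              rw [Finset.mem_range] at hx ⊢
              omega
            · intro j hj hj'
              rw [Finset.mem_range] at hj hj'
              rw [if_neg (by omega), mul_zero]
          rw [h4, ← HH_succ t, ht, ← add_mul, ← C_add]
          congr 2
          have : (n : ℚ) = t + 1 + r := by
            have : n = t + 1 + r := by omega
            exact_mod_cast this
          rw [this]
          ring
      · rw [if_neg hr, mul_zero]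
        have h3 : (∑ j ∈ range (n + 1), if j = r then HH (n - r) else 0) = 0 := by
          refine Finset.sum_eq_zero fun j hj => ?_
          rw [Finset.mem_range] at hj
          rw [if_neg (by omega)]
        have h4 : (∑ j ∈ range (n + 1),
            (X j * if r + 1 ≤ n - j then HH (n - j - (r + 1)) else 0 : MvPolynomial ℕ ℚ)) = 0 := by
          refine Finset.sum_eq_zero fun j _ => ?_
          rw [if_neg (by omega), mul_zero]
        rw [h3, h4, mul_zero, add_zero]

theorem coeff_zero_HH (n : ℕ) : coeff 0 (HH n) = if n = 0 then 1 else 0 := by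
  rcases n with _ | n
  · rw [HH_zero, if_pos rfl]
    exact coeff_zero_one
  · rw [if_neg (by omega)]
    have h := congrArg (coeff 0) (HH_succ n)
    rw [coeff_C_mul, coeff_sum] at h
    have h2 : ∑ r ∈ range (n + 1), coeff 0 (X r * HH (n - r)) = (0 : ℚ) := by
      refine Finset.sum_eq_zero fun r _ => ?_
      classical
      rw [coeff_X_mul', if_neg (by simp)]
    rw [h2] at h
    rcases mul_eq_zero.mp h with h3 | h3
    · exfalso
      have : (0 : ℚ) < (n : ℚ) + 1 := by positivity
      linarith
    · exact h3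

end Pool.Agent.Lib.MP_c1a8e2_al
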