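import Pool.Agent.Lib.MP_c1a8e2_al.h30.Defs

/-!
# Counting: `(λ, μ) ∈ P_{k,m} × Q_{m+1,m+k}` of total size `D` are as many as the partitions of `D`
with at most `k` parts
-/

set_option autoImplicit false

open Finset

namespace Pool.Agent.Lib.MP_c1a8e2_al

/-- generating function of a weighted type with finite fibres -/
noncomputable def GF {ι : Type} (w : ι → ℕ) : PowerSeries ℤ :=
  PowerSeries.mk fun d => (Nat.card {x : ι // w x = d} : ℤ)

/-- finite fibres -/
def FF {ι : Type} (w : ι → ℕ) : Prop := ∀ d, Finite {x : ι // w x = d}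

theorem coeff_GF {ι : Type} (w : ι → ℕ) (d : ℕ) :
    PowerSeries.coeff d (GF w) = (Nat.card {x : ι // w x = d} : ℤ) := by
  unfold GF
  rw [PowerSeries.coeff_mk]

/-- equivalence of fibres -/
def fibEquiv {ι κ : Type} (w : ι → ℕ) (w' : κ → ℕ) (e : ι ≃ κ) (h : ∀ x, w' (e x) = w x) (d : ℕ) :
    {x : ι // w x = d} ≃ {y : κ // w' y = d} :=
  e.subtypeEquiv (fun x => by rw [h x])

theorem GF_equiv {ι κ : Type} (w : ι → ℕ) (w' : κ → ℕ) (e : ι ≃ κ) (h : ∀ x, w' (e x) = w x) :
    GF w = GF w' := by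
  ext d
  rw [coeff_GF, coeff_GF, Nat.card_congr (fibEquiv w w' e h d)]

theorem FF_equiv {ι κ : Type} (w : ι → ℕ) (w' : κ → ℕ) (e : ι ≃ κ) (h : ∀ x, w' (e x) = w x)
    (hf : FF w') : FF w := fun d => by
  have := hf d
  exact Finite.of_equiv _ (fibEquiv w w' e h d).symm

/-- the fibres of a product -/
def fibProd {ι κ : Type} (w : ι → ℕ) (w' : κ → ℕ) (d : ℕ) :
    {x : ι × κ // w x.1 + w' x.2 = d} ≃
      Σ p : {p : ℕ × ℕ // p ∈ HasAntidiagonal.antidiagonal d},
        {x : ι // w x = p.1.1} × {y : κ // w' y = p.1.2} where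
  toFun x := ⟨⟨(w x.1.1, w' x.1.2), by rw [HasAntidiagonal.mem_antidiagonal]; exact x.2⟩,
    ⟨x.1.1, rfl⟩, ⟨x.1.2, rfl⟩⟩
  invFun y := ⟨(y.2.1.1, y.2.2.1), by
    have h1 := y.2.1.2
    have h2 := y.2.2.2
    have h3 := HasAntidiagonal.mem_antidiagonal.mp y.1.2
    simp only
    rw [h1, h2, h3]⟩
  left_inv x := rfl
  right_inv y := by
    obtain ⟨⟨⟨a, b⟩, hp⟩, ⟨x, hx⟩, ⟨y, hy⟩⟩ := y
    dsimp only at hx hy
    subst hx
    subst hy
    rfl

theorem FF_prod {ι κ : Type} (w : ι → ℕ) (w' : κ → ℕ) (h : FF w) (h' : FF w') :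
    FF (fun x : ι × κ => w x.1 + w' x.2) := fun d => by
  have h1 : ∀ p : {p : ℕ × ℕ // p ∈ HasAntidiagonal.antidiagonal d},
      Finite ({x : ι // w x = p.1.1} × {y : κ // w' y = p.1.2}) := fun p => by
    have := h p.1.1
    have := h' p.1.2
    infer_instance
  exact Finite.of_equiv _ (fibProd w w' d).symm

theorem GF_prod {ι κ : Type} (w : ι → ℕ) (w' : κ → ℕ) (h : FF w) (h' : FF w') :
    GF (fun x : ι × κ => w x.1 + w' x.2) = GF w * GF w' := by
  ext d
  rw [coeff_GF, PowerSeries.coeff_mul]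
  have h1 : ∀ p : {p : ℕ × ℕ // p ∈ HasAntidiagonal.antidiagonal d},
      Finite ({x : ι // w x = p.1.1} × {y : κ // w' y = p.1.2}) := fun p => by
    have := h p.1.1
    have := h' p.1.2
    infer_instance
  rw [Nat.card_congr (fibProd w w' d), Nat.card_sigma]
  simp only [Nat.card_prod]
  push_cast
  rw [← Finset.sum_coe_sort (HasAntidiagonal.antidiagonal d)]
  exact Finset.sum_congr rfl fun p _ => by rw [coeff_GF, coeff_GF]

/-- the fibres of a sum -/
def fibSum {ι κ : Type} (w : ι → ℕ) (w' : κ → ℕ) (d : ℕ) :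
    {x : ι ⊕ κ // Sum.elim w w' x = d} ≃ {x : ι // w x = d} ⊕ {y : κ // w' y = d} where
  toFun x := match x with
    | ⟨Sum.inl a, h⟩ => Sum.inl ⟨a, h⟩
    | ⟨Sum.inr b, h⟩ => Sum.inr ⟨b, h⟩
  invFun y := match y with
    | Sum.inl a => ⟨Sum.inl a.1, a.2⟩
    | Sum.inr b => ⟨Sum.inr b.1, b.2⟩
  left_inv x := by
    rcases x with ⟨a | b, h⟩ <;> rfl
  right_inv y := by
    rcases y with a | b <;> rfl

theorem GF_sum {ι κ : Type} (w : ι → ℕ) (w' : κ → ℕ) (h : FF w) (h' : FF w') :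
    GF (Sum.elim w w') = GF w + GF w' := by
  ext d
  have := h d
  have := h' d
  rw [coeff_GF, map_add, coeff_GF, coeff_GF, Nat.card_congr (fibSum w w' d), Nat.card_sum]
  push_cast
  rfl

theorem FF_shift {ι : Type} (w : ι → ℕ) (c : ℕ) (h : FF w) : FF (fun x => w x + c) := fun d => by
  by_cases hd : c ≤ d
  · have := h (d - c)
    exact Finite.of_equiv {x : ι // w x = d - c}
      ((Equiv.refl ι).subtypeEquiv (fun x => by simp only [Equiv.refl_apply]; omega))
  · have : IsEmpty {x : ι // w x + c = d} := ⟨fun x => by have := x.2; omega⟩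
    infer_instance

theorem GF_shift {ι : Type} (w : ι → ℕ) (c : ℕ) :
    GF (fun x => w x + c) = PowerSeries.X ^ c * GF w := by
  ext d
  rw [coeff_GF, PowerSeries.coeff_X_pow_mul']
  split_ifs with hd
  · rw [coeff_GF]
    congr 1
    exact Nat.card_congr
      ((Equiv.refl ι).subtypeEquiv (fun x => by simp only [Equiv.refl_apply]; omega))
  · have : IsEmpty {x : ι // w x + c = d} := ⟨fun x => by have := x.2; omega⟩
    simp

theorem FF_nat (c : ℕ) (hc : 1 ≤ c) : FF (fun j : ℕ => c * j) := fun d => by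
  have : Finite {x : ℕ // x ≤ d} := Set.finite_le_nat d |>.to_subtype
  refine Finite.of_injective (β := {x : ℕ // x ≤ d}) (fun x => ⟨x.1, ?_⟩) ?_
  · have := x.2
    nlinarith
  · intro a b hab
    apply Subtype.ext
    simpa using hab

theorem GF_unit : GF (fun _ : Unit => 0) = 1 := by
  ext d
  rw [coeff_GF, PowerSeries.coeff_one]
  split_ifs with h
  · subst h
    have : Nat.card {x : Unit // 0 = 0} = 1 := by simp
    exact_mod_cast this
  · have : IsEmpty {x : Unit // 0 = d} := ⟨fun x => h x.2.symm⟩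
    simp

theorem FF_unit : FF (fun _ : Unit => 0) := fun _ => inferInstance

theorem GF_nat (c : ℕ) (hc : 1 ≤ c) :
    GF (fun j : ℕ => c * j) * (1 - PowerSeries.X ^ c) = 1 := by
  have e : ℕ ≃ Unit ⊕ ℕ :=
    { toFun := fun n => match n with
        | 0 => Sum.inl ()
        | n + 1 => Sum.inr n
      invFun := fun x => match x with
        | Sum.inl _ => 0
        | Sum.inr n => n + 1
      left_inv := fun n => by cases n <;> rfl
      right_inv := fun x => by rcases x with x | n <;> rfl }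
  have h1 : GF (fun j : ℕ => c * j) =
      GF (Sum.elim (fun _ : Unit => 0) (fun j : ℕ => c * j + c)) := by
    refine GF_equiv _ _
      { toFun := fun n => match n with
          | 0 => Sum.inl ()
          | n + 1 => Sum.inr n
        invFun := fun x => match x with
          | Sum.inl _ => 0
          | Sum.inr n => n + 1
        left_inv := fun n => by cases n <;> rfl
        right_inv := fun x => by rcases x with x | n <;> rfl } ?_
    intro n
    cases n with
    | zero => rfl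
    | succ n =>
      show c * n + c = c * (n + 1)
      ring
  rw [GF_sum _ _ FF_unit (FF_shift _ _ (FF_nat c hc)), GF_unit, GF_shift] at h1
  linear_combination h1

/-! ### multiplicity vectors -/

/-- `∑ (m + 1 + i) b_i` -/
def wB {k : ℕ} (m : ℕ) (b : Fin k → ℕ) : ℕ := ∑ i, (m + 1 + i) * b i

theorem wB_cons {k : ℕ} (m : ℕ) (x : ℕ) (b : Fin k → ℕ) :
    wB m (Fin.cons x b : Fin (k + 1) → ℕ) = (m + 1) * x + wB (m + 1) b := by
  unfold wB
  rw [Fin.sum_univ_succ]
  simp only [Fin.cons_zero, Fin.cons_succ, Fin.val_zero, Fin.val_succ, add_zero]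
  congr 1
  refine Finset.sum_congr rfl fun i _ => ?_
  ring

theorem wB_snoc {k : ℕ} (m : ℕ) (x : ℕ) (b : Fin k → ℕ) :
    wB m (Fin.snoc b x : Fin (k + 1) → ℕ) = wB m b + (m + 1 + k) * x := by
  unfold wB
  rw [Fin.sum_univ_castSucc]
  simp only [Fin.snoc_castSucc, Fin.snoc_last, Fin.val_castSucc, Fin.val_last]

theorem FF_wB (k m : ℕ) : FF (wB (k := k) m) := by
  induction k generalizing m with
  | zero =>
    intro d
    infer_instance
  | succ k ih =>
    refine FF_equiv _ (fun x : ℕ × (Fin k → ℕ) => (m + 1) * x.1 + wB (m + 1) x.2)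
      (Fin.consEquiv (fun _ => ℕ)).symm ?_ (FF_prod _ _ (FF_nat (m + 1) (by omega)) (ih (m + 1)))
    intro b
    obtain ⟨p, rfl⟩ := (Fin.consEquiv (fun _ : Fin (k + 1) => ℕ)).surjective b
    rw [Equiv.symm_apply_apply]
    exact (wB_cons m p.1 p.2).symm

theorem GF_wB_cons (k m : ℕ) :
    GF (wB (k := k + 1) m) * (1 - PowerSeries.X ^ (m + 1)) = GF (wB (k := k) (m + 1)) := by
  have h1 : GF (wB (k := k + 1) m) = GF (fun j : ℕ => (m + 1) * j) * GF (wB (k := k) (m + 1)) := by
    rw [← GF_prod _ _ (FF_nat (m + 1) (by omega)) (FF_wB k (m + 1))]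
    refine GF_equiv _ _ (Fin.consEquiv (fun _ => ℕ)).symm ?_
    intro b
    obtain ⟨p, rfl⟩ := (Fin.consEquiv (fun _ : Fin (k + 1) => ℕ)).surjective b
    rw [Equiv.symm_apply_apply]
    exact (wB_cons m p.1 p.2).symm
  rw [h1]
  have h2 := GF_nat (m + 1) (by omega)
  linear_combination (GF (wB (k := k) (m + 1))) * h2

theorem GF_wB_snoc (k m : ℕ) :
    GF (wB (k := k + 1) (m + 1)) * (1 - PowerSeries.X ^ (m + 1 + (k + 1))) =
      GF (wB (k := k) (m + 1)) := by
  have h1 : GF (wB (k := k + 1) (m + 1)) =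
      GF (fun j : ℕ => (m + 1 + 1 + k) * j) * GF (wB (k := k) (m + 1)) := by
    rw [← GF_prod _ _ (FF_nat (m + 1 + 1 + k) (by omega)) (FF_wB k (m + 1))]
    refine GF_equiv _ _ (Fin.snocEquiv (fun _ => ℕ)).symm ?_
    intro b
    obtain ⟨p, rfl⟩ := (Fin.snocEquiv (fun _ : Fin (k + 1) => ℕ)).surjective b
    rw [Equiv.symm_apply_apply]
    exact ((wB_snoc (m + 1) p.1 p.2).trans (add_comm _ _)).symm
  rw [h1]
  have h2 := GF_nat (m + 1 + 1 + k) (by omega)
  have h3 : m + 1 + (k + 1) = m + 1 + 1 + k := by omega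
  rw [h3]
  linear_combination (GF (wB (k := k) (m + 1))) * h2

end Pool.Agent.Lib.MP_c1a8e2_al
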