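import Pool.Agent.Lib.MP_c1a8e2_al.h30.Basic

/-!
# Symmetric polynomials with a large exponent are combinations of `p_{m+1}, …, p_{m+k}`
-/

set_option autoImplicit false

open MvPolynomial Finset

namespace Pool.Agent.Lib.MP_c1a8e2_al

variable {k : ℕ} {R : Type*} [CommRing R]

/-! ### Degrees -/

theorem totalDegree_le_iff (f : MvPolynomial (Fin k) R) (D : ℕ) :
    f.totalDegree ≤ D ↔ ∀ w : Fin k →₀ ℕ, coeff w f ≠ 0 → ∑ i, w i ≤ D := by
  rw [totalDegree, Finset.sup_le_iff]
  constructor
  · intro h w hw
    have := h w (mem_support_iff.mpr hw)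
    rwa [Finsupp.sum_fintype _ _ (fun _ => rfl)] at this
  · intro h w hw
    rw [Finsupp.sum_fintype _ _ (fun _ => rfl)]
    exact h w (mem_support_iff.mp hw)

theorem totalDegree_esymm_le (n : ℕ) : (esymm (Fin k) R n).totalDegree ≤ n := by
  unfold esymm
  refine totalDegree_finsetSum_le fun t ht => ?_
  refine (totalDegree_finsetProd _ _).trans ?_
  rw [Finset.mem_powersetCard] at ht
  calc ∑ i ∈ t, (X i : MvPolynomial (Fin k) R).totalDegree ≤ ∑ _i ∈ t, 1 :=
        Finset.sum_le_sum fun i _ => by
          unfold X
          refine (totalDegree_monomial_le _ _).trans ?_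
          simp
    _ = n := by rw [Finset.sum_const, smul_eq_mul, mul_one, ht.2]

theorem esymm_eq_zero' (n : ℕ) (hn : k < n) : esymm (Fin k) R n = 0 := by
  unfold esymm
  rw [Finset.powersetCard_eq_empty.mpr (by simpa using hn), Finset.sum_empty]

theorem totalDegree_psum_le (n : ℕ) : (psum (Fin k) R n).totalDegree ≤ n := by
  unfold psum
  refine totalDegree_finsetSum_le fun i _ => ?_
  rw [X_pow_eq_monomial]
  refine (totalDegree_monomial_le _ _).trans ?_
  simp

theorem totalDegree_hsymm_le (n : ℕ) : (hsymm (Fin k) R n).totalDegree ≤ n := by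
  rw [totalDegree_le_iff]
  intro w hw
  rw [coeff_hsymm] at hw
  by_contra hc
  rw [if_neg (by omega)] at hw
  exact hw rfl

/-! ### The symmetrisation of a monomial -/

/-- `∑_σ x^{v ∘ σ}` -/
noncomputable def symA (R : Type*) [CommRing R] (v : Fin k → ℕ) : MvPolynomial (Fin k) R :=
  ∑ σ : Equiv.Perm (Fin k), monomial (ex (v ∘ σ)) 1

theorem ex_mapDomain (v : Fin k → ℕ) (e : Equiv.Perm (Fin k)) :
    (ex v).mapDomain e = ex (v ∘ e.symm) := by
  ext i
  rw [ex_apply]
  obtain ⟨j, rfl⟩ := e.surjective i
  rw [Finsupp.mapDomain_apply e.injective]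
  simp

theorem symA_isSymmetric (v : Fin k → ℕ) : (symA R v).IsSymmetric := by
  intro e
  unfold symA
  rw [map_sum]
  simp only [rename_monomial, ex_mapDomain]
  refine Fintype.sum_equiv (Equiv.mulRight e.symm) _ _ fun σ => ?_
  rfl

theorem symA_comp (v : Fin k → ℕ) (e : Equiv.Perm (Fin k)) : symA R (v ∘ e) = symA R v := by
  unfold symA
  refine Fintype.sum_equiv (Equiv.mulLeft e) _ _ fun σ => ?_
  rfl

theorem totalDegree_symA_le (v : Fin k → ℕ) : (symA R v).totalDegree ≤ ∑ i, v i := by
  unfold symA
  refine totalDegree_finsetSum_le fun σ _ => ?_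
  refine (totalDegree_monomial_le _ _).trans ?_
  rw [Finsupp.sum_fintype _ _ (fun _ => rfl)]
  refine le_of_eq ?_
  exact Equiv.sum_comp σ v

theorem psum_mul_symA (u : Fin k → ℕ) (N : ℕ) :
    symA R u * psum (Fin k) R N = ∑ j, symA R (u + Pi.single j N) := by
  unfold symA psum
  rw [Finset.sum_mul]
  simp only [Finset.mul_sum]
  rw [Finset.sum_comm (s := (Finset.univ : Finset (Fin k)))]
  refine Finset.sum_congr rfl fun σ _ => ?_
  refine Fintype.sum_equiv σ _ _ fun i => ?_
  rw [X_pow_eq_monomial, monomial_mul, one_mul]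
  have hex : ex (u ∘ σ) + Finsupp.single i N = ex ((u + Pi.single (σ i) N) ∘ σ) := by
    ext x
    rw [Finsupp.add_apply, ex_apply, ex_apply, Finsupp.single_apply]
    simp only [Function.comp_apply, Pi.add_apply]
    congr 1
    by_cases h : i = x
    · subst h
      rw [if_pos rfl, Pi.single_eq_same]
    · rw [if_neg h, Pi.single_eq_of_ne]
      intro h'
      exact h (σ.injective h'.symm)
  rw [hex]

/-! ### The filtered ideal -/

/-- Combinations `∑ g_i p_{m+1+i}` with symmetric `g_i` of degree at most `D - (m + 1 + i)`. -/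
noncomputable def JJ (k m : ℕ) (R : Type*) [CommRing R] (D : ℕ) : Submodule R (MvPolynomial (Fin k) R) :=
  Submodule.span R {f | ∃ (i : Fin k) (g : MvPolynomial (Fin k) R), g.IsSymmetric ∧
    g.totalDegree + (m + 1 + i) ≤ D ∧ f = g * psum (Fin k) R (m + 1 + i)}

theorem JJ_mono {m D D' : ℕ} (h : D ≤ D') : JJ k m R D ≤ JJ k m R D' := by
  apply Submodule.span_mono
  rintro f ⟨i, g, hg, hd, rfl⟩
  exact ⟨i, g, hg, hd.trans h, rfl⟩

theorem JJ_mul {m D a : ℕ} (g f : MvPolynomial (Fin k) R) (hg : g.IsSymmetric)
    (ha : g.totalDegree ≤ a) (hf : f ∈ JJ k m R D) : g * f ∈ JJ k m R (D + a) := by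
  unfold JJ at hf
  induction hf using Submodule.span_induction with
  | mem x hx =>
    obtain ⟨i, g', hg', hd, rfl⟩ := hx
    apply Submodule.subset_span
    refine ⟨i, g * g', hg.mul hg', ?_, by ring⟩
    have := totalDegree_mul g g'
    omega
  | zero => rw [mul_zero]; exact Submodule.zero_mem _
  | add x y _ _ hx hy => rw [mul_add]; exact Submodule.add_mem _ hx hy
  | smul r x _ hx => rw [mul_smul_comm]; exact Submodule.smul_mem _ _ hx

theorem psum_mem_JJ {m : ℕ} (N : ℕ) (hN : m + 1 ≤ N) : psum (Fin k) R N ∈ JJ k m R N := by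
  induction N using Nat.strong_induction_on with
  | _ N ih =>
    by_cases hk : N ≤ m + k
    · apply Submodule.subset_span
      refine ⟨⟨N - (m + 1), by omega⟩, 1, IsSymmetric.one, ?_, ?_⟩
      · rw [totalDegree_one]
        simp only
        omega
      · rw [one_mul]
        congr 1
        simp only
        omega
    · rw [psum_eq_mul_esymm_sub_sum (Fin k) R N (by omega), esymm_eq_zero' N (by omega), mul_zero,
        zero_sub]
      apply Submodule.neg_mem
      apply Submodule.sum_mem
      intro a ha
      rw [Finset.mem_filter, HasAntidiagonal.mem_antidiagonal, Set.mem_Ioo] at ha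
      by_cases hak : k < a.1
      · rw [esymm_eq_zero' _ hak, mul_zero, zero_mul]
        exact Submodule.zero_mem _
      · have h1 := ih a.2 (by omega) (by omega)
        have h2 : (((-1) ^ a.1 * esymm (Fin k) R a.1) : MvPolynomial (Fin k) R).IsSymmetric := by
          refine IsSymmetric.mul ?_ (esymm_isSymmetric _ _ _)
          have : ((-1) ^ a.1 : MvPolynomial (Fin k) R) = C ((-1) ^ a.1) := by simp
          rw [this]
          exact IsSymmetric.C _
        have h3 : (((-1) ^ a.1 * esymm (Fin k) R a.1) : MvPolynomial (Fin k) R).totalDegree ≤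
            a.1 := by
          have : ((-1) ^ a.1 : MvPolynomial (Fin k) R) = C ((-1) ^ a.1) := by simp
          rw [this]
          refine (totalDegree_mul _ _).trans ?_
          rw [totalDegree_C, zero_add]
          exact totalDegree_esymm_le _
        have h4 := JJ_mul _ _ h2 h3 h1
        rwa [show a.2 + a.1 = N by omega] at h4

/-- The symmetrisation of a monomial with an exponent larger than `m` belongs to the ideal. -/
theorem symA_mem_JJ [Algebra ℚ R] {m : ℕ} (t : ℕ) (v : Fin k → ℕ)
    (ht : (Finset.univ.filter (fun i => v i ≠ 0)).card ≤ t) (i₀ : Fin k) (hi : m < v i₀) :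
    symA R v ∈ JJ k m R (∑ i, v i) := by
  classical
  induction t generalizing v i₀ with
  | zero =>
    exfalso
    have : i₀ ∈ Finset.univ.filter (fun i => v i ≠ 0) := by
      rw [Finset.mem_filter]
      exact ⟨Finset.mem_univ _, by omega⟩
    have := Finset.card_pos.mpr ⟨i₀, this⟩
    omega
  | succ t ih =>
    set N := v i₀ with hN
    set u : Fin k → ℕ := Function.update v i₀ 0 with hu
    have hsum : ∑ i, u i + N = ∑ i, v i := by
      rw [hu, hN, ← Finset.add_sum_erase Finset.univ v (Finset.mem_univ i₀),
        ← Finset.add_sum_erase Finset.univ (Function.update v i₀ 0) (Finset.mem_univ i₀),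
        Function.update_self, zero_add, add_comm]
      congr 1
      refine Finset.sum_congr rfl fun x hx => ?_
      rw [Function.update_of_ne (Finset.ne_of_mem_erase hx)]
    have hprod := psum_mul_symA (R := R) u N
    -- the product is in the ideal
    have hmem1 : symA R u * psum (Fin k) R N ∈ JJ k m R (∑ i, v i) := by
      have h1 := JJ_mul (m := m) (symA R u) (psum (Fin k) R N) (symA_isSymmetric u)
        (totalDegree_symA_le u) (psum_mem_JJ N (by omega))
      rwa [show N + ∑ i, u i = ∑ i, v i by omega] at h1
    set Z := Finset.univ.filter (fun j => u j = 0) with hZ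
    have hZ0 : i₀ ∈ Z := by
      rw [hZ, Finset.mem_filter]
      exact ⟨Finset.mem_univ _, by rw [hu, Function.update_self]⟩
    have hsplit : ∑ j, symA R (u + Pi.single j N) =
        ∑ j ∈ Z, symA R (u + Pi.single j N) +
          ∑ j ∈ Finset.univ.filter (fun j => ¬ u j = 0), symA R (u + Pi.single j N) :=
      (Finset.sum_filter_add_sum_filter_not _ _ _).symm
    have hzero : ∀ j ∈ Z, symA R (u + Pi.single j N) = symA R v := by
      intro j hj
      rw [hZ, Finset.mem_filter] at hj
      have h1 : u + Pi.single j N = v ∘ (Equiv.swap i₀ j) := by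
        funext x
        rw [Function.comp_apply, Pi.add_apply]
        by_cases hxj : x = j
        · subst hxj
          rw [Pi.single_eq_same, Equiv.swap_apply_right, hj.2, zero_add]
        · rw [Pi.single_eq_of_ne hxj, add_zero]
          by_cases hxi : x = i₀
          · subst hxi
            rw [Equiv.swap_apply_left, hu, Function.update_self]
            have : u j = v j := by
              rw [hu, Function.update_of_ne (Ne.symm hxj)]
            rw [← this, hj.2]
          · rw [Equiv.swap_apply_of_ne_of_ne hxi hxj, hu, Function.update_of_ne hxi]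
      rw [h1, symA_comp]
    have hother : ∀ j ∈ Finset.univ.filter (fun j => ¬ u j = 0),
        symA R (u + Pi.single j N) ∈ JJ k m R (∑ i, v i) := by
      intro j hj
      rw [Finset.mem_filter] at hj
      have hji : j ≠ i₀ := by
        rintro rfl
        exact hj.2 (by rw [hu, Function.update_self])
      have h1 : ∑ i, (u + Pi.single j N : Fin k → ℕ) i = ∑ i, v i := by
        rw [← hsum]
        simp only [Pi.add_apply, Finset.sum_add_distrib]
        congr 1
        exact Finset.sum_pi_single' j N Finset.univ |>.trans (by simp)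
      have h2 := ih (u + Pi.single j N) (i₀ := j) ?_ ?_
      · rwa [h1] at h2
      · have hsub : Finset.univ.filter (fun i => (u + Pi.single j N : Fin k → ℕ) i ≠ 0) ⊆
            (Finset.univ.filter (fun i => v i ≠ 0)).erase i₀ := by
          intro x hx
          rw [Finset.mem_filter] at hx
          rw [Finset.mem_erase, Finset.mem_filter]
          have hxi : x ≠ i₀ := by
            rintro rfl
            apply hx.2
            rw [Pi.add_apply, Pi.single_eq_of_ne (Ne.symm hji), hu, Function.update_self, zero_add]
          refine ⟨hxi, Finset.mem_univ _, ?_⟩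
          by_cases hxj : x = j
          · subst hxj
            have h3 := hj.2
            rw [hu, Function.update_of_ne hxi] at h3
            exact h3
          · have h3 := hx.2
            rw [Pi.add_apply, Pi.single_eq_of_ne hxj, add_zero, hu, Function.update_of_ne hxi] at h3
            exact h3
        have h3 := Finset.card_le_card hsub
        have h4 : i₀ ∈ Finset.univ.filter (fun i => v i ≠ 0) := by
          rw [Finset.mem_filter]
          exact ⟨Finset.mem_univ _, by omega⟩
        rw [Finset.card_erase_of_mem h4] at h3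
        omega
      · rw [Pi.add_apply, Pi.single_eq_same]
        omega
    have hfin : (Z.card : ℚ) • symA R v ∈ JJ k m R (∑ i, v i) := by
      have h1 : (Z.card : ℚ) • symA R v = ∑ j ∈ Z, symA R (u + Pi.single j N) := by
        rw [Finset.sum_congr rfl hzero, Finset.sum_const, Nat.cast_smul_eq_nsmul]
      rw [h1]
      have h2 : ∑ j ∈ Z, symA R (u + Pi.single j N) = symA R u * psum (Fin k) R N -
          ∑ j ∈ Finset.univ.filter (fun j => ¬ u j = 0), symA R (u + Pi.single j N) := by
        rw [hprod, hsplit]
        ring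
      rw [h2]
      exact Submodule.sub_mem _ hmem1 (Submodule.sum_mem _ hother)
    have hZpos : (Z.card : ℚ) ≠ 0 := by
      have := Finset.card_pos.mpr ⟨i₀, hZ0⟩
      exact_mod_cast this.ne'
    have h5 : symA R v = (algebraMap ℚ R (Z.card : ℚ)⁻¹) • ((Z.card : ℚ) • symA R v) := by
      rw [algebraMap_smul, smul_smul, inv_mul_cancel₀ hZpos, one_smul]
    rw [h5]
    exact Submodule.smul_mem _ _ hfin

end Pool.Agent.Lib.MP_c1a8e2_al
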