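import Pool.Agent.Lib.MP_c1a8e2_al.h30.Decomp

/-!
# The matrix of the numbers of nonnegative integer matrices with given margins
-/

set_option autoImplicit false

open MvPolynomial Finset

namespace Pool.Agent.Lib.MP_c1a8e2_al

variable {k m : ℕ}

/-- The number of `m × k` matrices of natural numbers with row sums `r` and column sums `b`. -/
noncomputable def margins (m k : ℕ) (r : Fin m → ℕ) (b : Fin k → ℕ) : ℕ :=
  Nat.card {A : Fin m → Fin k → ℕ // (∀ j, ∑ i, A j i = r j) ∧ ∀ i, ∑ j, A j i = b i}

theorem margins_comm (m k : ℕ) (r : Fin m → ℕ) (b : Fin k → ℕ) :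
    margins m k r b = margins k m b r := by
  unfold margins
  refine Nat.card_congr
    { toFun := fun A => ⟨fun i j => A.1 j i, A.2.2, A.2.1⟩
      invFun := fun A => ⟨fun i j => A.1 j i, A.2.2, A.2.1⟩
      left_inv := fun A => rfl
      right_inv := fun A => rfl }

theorem hsymm_eq (R : Type*) [CommRing R] (n : ℕ) :
    hsymm (Fin k) R n = ∑ v ∈ Finset.piAntidiag (Finset.univ : Finset (Fin k)) n,
      monomial (ex v) 1 := by
  classical
  ext w
  rw [coeff_hsymm, coeff_sum]
  simp only [coeff_monomial]
  have h : ∀ v : Fin k → ℕ, (ex v = w) ↔ (v = ⇑w) := by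
    intro v
    constructor
    · rintro rfl; rfl
    · rintro rfl; exact ex_coe w
  simp only [h]
  rw [Finset.sum_ite_eq' (Finset.piAntidiag (Finset.univ : Finset (Fin k)) n) (⇑w)]
  congr 1
  rw [Finset.mem_piAntidiag]
  simp

theorem coeff_prod_hsymm (R : Type*) [CommRing R] (r : Fin m → ℕ) (b : Fin k → ℕ) :
    coeff (ex b) (∏ j, hsymm (Fin k) R (r j)) = (margins m k r b : R) := by
  classical
  simp only [hsymm_eq]
  rw [Finset.prod_univ_sum, coeff_sum]
  have h1 : ∀ A : Fin m → Fin k → ℕ, (∏ j, monomial (ex (A j)) (1 : R)) =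
      monomial (ex (fun i => ∑ j, A j i)) 1 := by
    intro A
    have h2 : ∀ s : Finset (Fin m), (∏ j ∈ s, monomial (ex (A j)) (1 : R)) =
        monomial (ex (fun i => ∑ j ∈ s, A j i)) 1 := by
      intro s
      induction s using Finset.induction_on with
      | empty =>
        have : ex (fun _ : Fin k => 0) = 0 := by ext i; rfl
        simp [this]
      | insert a s ha ih =>
        have h3 : ex (A a) + ex (fun i => ∑ j ∈ s, A j i) =
            ex (fun i => ∑ j ∈ insert a s, A j i) := by
          ext i
          rw [Finsupp.add_apply, ex_apply, ex_apply, ex_apply, Finset.sum_insert ha]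
        rw [Finset.prod_insert ha, ih, monomial_mul, one_mul, h3]
    exact h2 _
  simp only [h1, coeff_monomial]
  rw [Finset.sum_boole]
  congr 1
  unfold margins
  rw [Nat.subtype_card]
  intro A
  rw [Finset.mem_filter, Fintype.mem_piFinset]
  simp only [Finset.mem_piAntidiag, Finset.mem_univ, implies_true, and_true]
  constructor
  · rintro ⟨h2, h3⟩
    exact ⟨h2, fun i => congrFun (ex_injective h3) i⟩
  · rintro ⟨h2, h3⟩
    refine ⟨h2, ?_⟩
    congr 1
    funext i
    exact h3 i

theorem hConj_eq (R : Type*) [CommRing R] (l : Fin k → ℕ) :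
    hConj k m R l = ∏ j : Fin m, hsymm (Fin k) R (conjPart l (j + 1)) := by
  unfold hConj
  rw [Fin.prod_univ_eq_prod_range (fun i => hsymm (Fin k) R (conjPart l (i + 1))) m]
  rw [Finset.range_eq_Ico, Finset.prod_Ico_add' (fun i => hsymm (Fin k) R (conjPart l i)) 0 m 1]
  rfl

/-- The matrix with rows and columns indexed by `P_{k,m}`, whose entry at `(λ, β)` is the number of
`m × k` matrices of natural numbers with row sums `λ'` and column sums `β`. -/
noncomputable def MM (k m : ℕ) : Matrix (Box k m) (Box k m) ℤ :=
  fun l b => (margins m k (fun j => conjPart l.1 (j + 1)) b.1 : ℤ)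

theorem coeff_hConj_eq (R : Type*) [CommRing R] (l b : Box k m) :
    coeff (ex b.1) (hConj k m R l.1) = ((MM k m l b : ℤ) : R) := by
  rw [hConj_eq, coeff_prod_hsymm, MM]
  simp

open Classical in
theorem nonsing_iff_det : Nonsing k m ↔ (MM k m).det ≠ 0 := by
  set M : Matrix (Box k m) (Box k m) ℚ := (Int.castRingHom ℚ).mapMatrix (MM k m) with hM
  have h1 : M.det = ((MM k m).det : ℚ) := by
    rw [hM, ← RingHom.map_det]
    simp
  have h2 : Nonsing k m ↔ ¬ ∃ v ≠ 0, Matrix.vecMul v M = 0 := by
    unfold Nonsing
    constructor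
    · intro h
      rintro ⟨v, hv, hv0⟩
      apply hv
      apply h
      intro b
      have h3 := congrFun hv0 b
      simp only [Matrix.vecMul, dotProduct, Pi.zero_apply] at h3
      rw [← h3]
      refine Finset.sum_congr rfl fun l _ => ?_
      rw [coeff_hConj_eq]
      rfl
    · intro h c hc
      by_contra hne
      apply h
      refine ⟨c, hne, ?_⟩
      funext b
      simp only [Matrix.vecMul, dotProduct, Pi.zero_apply]
      rw [← hc b]
      refine Finset.sum_congr rfl fun l _ => ?_
      rw [coeff_hConj_eq]
      rfl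
  rw [h2, Matrix.exists_vecMul_eq_zero_iff, h1]
  simp

open Classical in
/-- It suffices to show that the matrix is nonsingular over some field. -/
theorem nonsing_of_field (K : Type) [Field K]
    (h : ∀ c : Box k m → K, (∀ b : Box k m, ∑ l, c l * coeff (ex b.1) (hConj k m K l.1) = 0) →
      c = 0) : Nonsing k m := by
  rw [nonsing_iff_det]
  intro h0
  set M : Matrix (Box k m) (Box k m) K := (Int.castRingHom K).mapMatrix (MM k m) with hM
  have h1 : M.det = 0 := by
    rw [hM, ← RingHom.map_det]
    rw [h0, map_zero]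
  obtain ⟨v, hv, hv0⟩ := Matrix.exists_vecMul_eq_zero_iff.mpr h1
  apply hv
  apply h
  intro b
  have h3 := congrFun hv0 b
  simp only [Matrix.vecMul, dotProduct, Pi.zero_apply] at h3
  rw [← h3]
  refine Finset.sum_congr rfl fun l _ => ?_
  rw [coeff_hConj_eq]
  rfl

/-! ### Symmetry -/

/-- conjugation of partitions -/
def conjBox (k m : ℕ) (l : Box k m) : Box m k :=
  ⟨fun j => conjPart l.1 (j + 1), fun a b hab => conjPart_anti l.1 (by
    have : (a : ℕ) ≤ b := hab
    omega), fun i => conjPart_le _ _⟩

theorem conjPart_conjBox (l : Box k m) (i : Fin k) :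
    conjPart (conjBox k m l).1 (i + 1) = l.1 i := by
  unfold conjPart conjBox
  have h : (Finset.univ.filter fun j : Fin m => (i : ℕ) + 1 ≤ conjPart l.1 (j + 1)) =
      Finset.univ.filter fun j : Fin m => (j : ℕ) < l.1 i := by
    ext j
    rw [Finset.mem_filter, Finset.mem_filter, ← le_iff_conjPart l.1 l.2.1]
    simp only [Finset.mem_univ, true_and]
    omega
  have h2 : ((Finset.univ : Finset (Fin m)).filter fun j : Fin m => (j : ℕ) < l.1 i).card =
      l.1 i := by
    rw [Fin.card_filter_val_lt]
    exact min_eq_right (l.2.2 i)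
  rw [← h2, ← h]

/-- conjugation as an equivalence -/
def conjEquiv (k m : ℕ) : Box k m ≃ Box m k where
  toFun := conjBox k m
  invFun := conjBox m k
  left_inv l := by
    apply Subtype.ext
    funext i
    exact conjPart_conjBox l i
  right_inv l := by
    apply Subtype.ext
    funext i
    exact conjPart_conjBox l i

theorem MM_conj (l b : Box k m) :
    MM m k (conjEquiv k m b) (conjEquiv k m l) = MM k m l b := by
  unfold MM
  rw [margins_comm]
  congr 2
  funext i
  exact conjPart_conjBox b i

open Classical in
theorem det_symm : (MM m k).det = (MM k m).det := by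
  have h : (MM k m).transpose = (MM m k).submatrix (conjEquiv k m) (conjEquiv k m) := by
    ext b l
    rw [Matrix.transpose_apply, Matrix.submatrix_apply, MM_conj]
  rw [← Matrix.det_transpose (MM k m), h, Matrix.det_submatrix_equiv_self]

end Pool.Agent.Lib.MP_c1a8e2_al
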