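import Pool.Agent.Lib.MP_c1a8e2_al.h30.Fischer

set_option autoImplicit false

open MvPolynomial Finset

namespace Pool.Agent.Lib.MP_c1a8e2_al

variable {k : ℕ}

theorem coeff_mul_psum {R : Type*} [CommRing R] (f : MvPolynomial (Fin k) R) (N : ℕ)
    (w : Fin k →₀ ℕ) :
    coeff w (f * psum (Fin k) R N) =
      ∑ i, if N ≤ w i then coeff (w - Finsupp.single i N) f else 0 := by
  classical
  unfold psum
  rw [Finset.mul_sum, coeff_sum]
  refine Finset.sum_congr rfl fun i _ => ?_
  rw [X_pow_eq_monomial, coeff_mul_monomial', mul_one]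
  simp only [Finsupp.single_le_iff]

theorem sum_sub_single (w : Fin k →₀ ℕ) (i : Fin k) (N : ℕ) (h : N ≤ w i) :
    ∑ j, (w - Finsupp.single i N) j + N = ∑ j, w j := by
  have h1 : w = (w - Finsupp.single i N) + Finsupp.single i N := by
    rw [tsub_add_cancel_of_le]
    rwa [Finsupp.single_le_iff]
  conv_rhs => rw [h1]
  simp only [Finsupp.add_apply, Finset.sum_add_distrib]
  congr 1
  simp [Finsupp.single_apply]

/-- Newton's identity for the complete homogeneous symmetric polynomials. -/
theorem newton_hsymm (n : ℕ) :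
    C ((n : ℚ) + 1) * hsymm (Fin k) ℚ (n + 1) =
      ∑ r ∈ range (n + 1), psum (Fin k) ℚ (r + 1) * hsymm (Fin k) ℚ (n - r) := by
  ext w
  rw [coeff_C_mul, coeff_hsymm, coeff_sum]
  have h1 : ∀ r ∈ range (n + 1), coeff w (psum (Fin k) ℚ (r + 1) * hsymm (Fin k) ℚ (n - r)) =
      ∑ i, if r + 1 ≤ w i ∧ ∑ j, w j = n + 1 then (1 : ℚ) else 0 := by
    intro r hr
    rw [Finset.mem_range] at hr
    rw [mul_comm, coeff_mul_psum]
    refine Finset.sum_congr rfl fun i _ => ?_
    by_cases hi : r + 1 ≤ w i
    · rw [if_pos hi, coeff_hsymm]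
      have h2 := sum_sub_single w i (r + 1) hi
      by_cases hw : ∑ j, w j = n + 1
      · rw [if_pos (by omega), if_pos ⟨hi, hw⟩]
      · rw [if_neg (by omega), if_neg (fun h => hw h.2)]
    · rw [if_neg hi, if_neg (fun h => hi h.1)]
  rw [Finset.sum_congr rfl h1]
  by_cases hw : ∑ j, w j = n + 1
  · rw [if_pos hw, mul_one, Finset.sum_comm]
    have h3 : ∀ i : Fin k, ∑ r ∈ range (n + 1),
        (if r + 1 ≤ w i ∧ ∑ j, w j = n + 1 then (1 : ℚ) else 0) = (w i : ℚ) := by
      intro i
      have hwi : w i ≤ n + 1 := by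
        rw [← hw]
        exact Finset.single_le_sum (f := fun j => w j) (fun _ _ => Nat.zero_le _) (Finset.mem_univ i)
      have h4 : ∀ r ∈ range (n + 1), (if r + 1 ≤ w i ∧ ∑ j, w j = n + 1 then (1 : ℚ) else 0) =
          if r ∈ range (w i) then 1 else 0 := by
        intro r _
        simp only [Finset.mem_range, hw, and_true]
        congr 1
      rw [Finset.sum_congr rfl h4, Finset.sum_ite_mem, Finset.sum_const, nsmul_eq_mul, mul_one]
      congr 1
      rw [Finset.inter_eq_right.mpr]
      · exact Finset.card_range _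
      · intro x hx
        rw [Finset.mem_range] at hx ⊢
        omega
    rw [Finset.sum_congr rfl (fun i _ => h3 i), ← Nat.cast_sum, hw]
    push_cast
    ring
  · rw [if_neg hw, mul_zero]
    symm
    refine Finset.sum_eq_zero fun r _ => Finset.sum_eq_zero fun i _ => ?_
    rw [if_neg (fun h => hw h.2)]

/-- Evaluation of a polynomial in the power sums. -/
noncomputable def ev (k : ℕ) : MvPolynomial ℕ ℚ →ₐ[ℚ] MvPolynomial (Fin k) ℚ :=
  aeval (fun r => psum (Fin k) ℚ (r + 1))

theorem ev_X (r : ℕ) : ev k (X r) = psum (Fin k) ℚ (r + 1) := by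
  unfold ev
  rw [aeval_X]

theorem ev_HH (n : ℕ) : ev k (HH n) = hsymm (Fin k) ℚ n := by
  induction n using Nat.strong_induction_on with
  | _ n ih =>
    rcases n with _ | n
    · rw [HH_zero, map_one, hsymm_zero]
    · have hC : (C ((n : ℚ) + 1) : MvPolynomial (Fin k) ℚ) ≠ 0 := by
        rw [Ne, C_eq_zero]
        positivity
      apply mul_left_cancel₀ hC
      rw [newton_hsymm]
      have h1 : C ((n : ℚ) + 1) * ev k (HH (n + 1)) = ev k (C ((n : ℚ) + 1) * HH (n + 1)) := by
        rw [map_mul]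
        congr 1
        exact ((ev k).commutes _).symm
      rw [h1, HH_succ, map_sum]
      refine Finset.sum_congr rfl fun r hr => ?_
      rw [Finset.mem_range] at hr
      rw [map_mul, ev_X, ih (n - r) (by omega)]

theorem pderiv_prod (s : Finset (Fin k)) (w : Fin k → ℕ) (r : ℕ) :
    C ((r : ℚ) + 1) * pderiv r (∏ i ∈ s, HH (w i)) =
      ∑ i ∈ s, (if r + 1 ≤ w i then HH (w i - (r + 1)) else 0) * ∏ j ∈ s.erase i, HH (w j) := by
  classical
  induction s using Finset.induction_on with
  | empty => simp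
  | insert a s ha ih =>
    rw [Finset.prod_insert ha, pderiv_mul, Finset.sum_insert ha, Finset.erase_insert ha]
    have h1 : C ((r : ℚ) + 1) * (pderiv r (HH (w a)) * ∏ i ∈ s, HH (w i) +
        HH (w a) * pderiv r (∏ i ∈ s, HH (w i))) =
        (C ((r : ℚ) + 1) * pderiv r (HH (w a))) * ∏ i ∈ s, HH (w i) +
        HH (w a) * (C ((r : ℚ) + 1) * pderiv r (∏ i ∈ s, HH (w i))) := by ring
    rw [h1, pderiv_HH, ih, Finset.mul_sum]
    congr 1
    refine Finset.sum_congr rfl fun i hi => ?_
    have hia : i ≠ a := fun h => ha (h ▸ hi)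
    have h2 : (insert a s).erase i = insert a (s.erase i) := by
      rw [Finset.erase_insert_of_ne (Ne.symm hia)]
    rw [h2, Finset.prod_insert (fun h => ha (Finset.mem_of_mem_erase h))]
    ring

theorem riesz (g : MvPolynomial ℕ ℚ) (w : Fin k →₀ ℕ) :
    ip (∏ i, HH (w i)) g = coeff w (ev k g) := by
  classical
  induction g using MvPolynomial.induction_on generalizing w with
  | C a =>
    have h1 : (C a : MvPolynomial ℕ ℚ) = monomial 0 a := rfl
    rw [h1, ip_monomial, zw_zero, one_mul, ← h1]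
    have h2 : ev k (C a) = C a := (ev k).commutes a
    rw [h2, coeff_C]
    have h3 : coeff 0 (∏ i, HH (w i)) = ∏ i : Fin k, (if w i = 0 then (1 : ℚ) else 0) := by
      rw [← constantCoeff_eq, map_prod]
      refine Finset.prod_congr rfl fun i _ => ?_
      rw [constantCoeff_eq, coeff_zero_HH]
    rw [h3]
    by_cases h0 : 0 = w
    · rw [if_pos h0, ← h0]
      simp
    · rw [if_neg h0]
      obtain ⟨i, hi⟩ : ∃ i, w i ≠ 0 := by
        by_contra hc
        push Not at hc
        exact h0 (Finsupp.ext fun i => (hc i).symm)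
      rw [Finset.prod_eq_zero (Finset.mem_univ i) (if_neg hi), mul_zero]
  | add p q hp hq => rw [map_add, map_add, coeff_add, hp, hq]
  | mul_X p r hp =>
    rw [ip_mul_X, pderiv_prod, ip_sum_left, map_mul, ev_X, coeff_mul_psum]
    refine Finset.sum_congr rfl fun i _ => ?_
    by_cases hi : r + 1 ≤ w i
    · rw [if_pos hi, if_pos hi, ← hp]
      congr 1
      congr 1
      rw [← Finset.mul_prod_erase Finset.univ _ (Finset.mem_univ i)]
      congr 1
      · rw [Finsupp.tsub_apply, Finsupp.single_apply, if_pos rfl]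
      · refine Finset.prod_congr rfl fun j hj => ?_
        rw [Finsupp.tsub_apply, Finsupp.single_apply, if_neg (Ne.symm (Finset.ne_of_mem_erase hj)),
          Nat.sub_zero]
    · rw [if_neg hi, if_neg hi, zero_mul, ip_zero_left]

end Pool.Agent.Lib.MP_c1a8e2_al
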