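import Pool.Agent.Lib.MP_c1a8e2_al.h30.Decomp

/-!
# The two questions as propositions

For integers `1 ≤ k ≤ n` and a commutative `ℚ`-algebra `R`, the statements asked about in the
problem, for this `(k, n, R)`.
-/

set_option autoImplicit false

open MvPolynomial

namespace Pool.Agent.Lib.MP_c1a8e2_al

/-- `Q_{n-k+1,n}`: partitions of arbitrary length (finite multisets of positive integers) all of
whose parts lie in `{n-k+1, …, n}`. -/
abbrev QPart (k n : ℕ) : Type := {μ : Multiset ℕ // ∀ i ∈ μ, n - k + 1 ≤ i ∧ i ≤ n}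

/-- The power sum `p_i`, as an element of the ring `𝒮` of symmetric polynomials. -/
noncomputable def pS (k : ℕ) (R : Type*) [CommRing R] (i : ℕ) : symmetricSubalgebra (Fin k) R :=
  ⟨psum (Fin k) R i, psum_isSymmetric _ _ _⟩

/-- The polynomial `h_{λ'}`, `λ ∈ P_{k,n-k}`, as an element of the ring `𝒮`. -/
noncomputable def hS (k n : ℕ) (R : Type*) [CommRing R] (l : Box k (n - k)) :
    symmetricSubalgebra (Fin k) R :=
  ⟨hConj k (n - k) R l.1, hConj_isSymmetric l.1⟩

/-- The family `h_{λ'} p_μ`, `λ ∈ P_{k,n-k}`, `μ ∈ Q_{n-k+1,n}`. -/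
noncomputable def fam (k n : ℕ) (R : Type*) [CommRing R] (x : Box k (n - k) × QPart k n) :
    symmetricSubalgebra (Fin k) R :=
  hS k n R x.1 * (x.2.1.map (pS k R)).prod

/-- The statement of Q1 for the data `k, n, R`: the family `h_{λ'} p_μ` is an `R`-basis of `𝒮`. -/
def Q1 (k n : ℕ) (R : Type*) [CommRing R] : Prop :=
  LinearIndependent R (fam k n R) ∧ Submodule.span R (Set.range (fam k n R)) = ⊤

/-- The ideal `𝒥` of `𝒮` generated by `p_{n-k+1} - a_1, …, p_n - a_k`. -/
noncomputable def idealJ (k n : ℕ) (R : Type*) [CommRing R]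
    (a : Fin k → symmetricSubalgebra (Fin k) R) : Ideal (symmetricSubalgebra (Fin k) R) :=
  Ideal.span (Set.range fun i : Fin k => pS k R (n - k + 1 + i) - a i)

/-- The statement of Q2 for the data `k, n, R`: for all `a_1, …, a_k ∈ 𝒮` with
`deg a_i < n - k + i`, the images of the `h_{λ'}`, `λ ∈ P_{k,n-k}`, form an `R`-basis of `𝒮/𝒥`. -/
def Q2 (k n : ℕ) (R : Type*) [CommRing R] : Prop :=
  ∀ a : Fin k → symmetricSubalgebra (Fin k) R,
    (∀ i : Fin k, (a i : MvPolynomial (Fin k) R).totalDegree < n - k + 1 + i) →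
    LinearIndependent R (fun l => Ideal.Quotient.mk (idealJ k n R a) (hS k n R l)) ∧
    Submodule.span R (Set.range fun l => Ideal.Quotient.mk (idealJ k n R a) (hS k n R l)) = ⊤

end Pool.Agent.Lib.MP_c1a8e2_al
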