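import Pool.Agent.Lib.MP_c1a8e2_al.h30.Matrix

/-!
# Two variables, `m + 1` a prime power
-/

set_option autoImplicit false

open MvPolynomial Finset

namespace Pool.Agent.Lib.MP_c1a8e2_al

variable {m : ℕ}

/-- substitution `x_0 = X`, `x_1 = 1` -/
noncomputable def sub1 (L : Type) [Field L] : MvPolynomial (Fin 2) L →ₐ[L] Polynomial L :=
  aeval ![Polynomial.X, 1]

theorem sub1_monomial (L : Type) [Field L] (w : Fin 2 →₀ ℕ) (c : L) :
    sub1 L (monomial w c) = Polynomial.monomial (w 0) c := by
  unfold sub1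
  rw [aeval_monomial, Finsupp.prod_fintype _ _ (fun _ => by simp), Fin.prod_univ_two]
  simp only [Matrix.cons_val_zero, Matrix.cons_val_one, one_pow, mul_one]
  rw [← Polynomial.C_mul_X_pow_eq_monomial]
  rfl

theorem sub1_hsymm (L : Type) [Field L] :
    sub1 L (hsymm (Fin 2) L 0) = 1 ∧ sub1 L (hsymm (Fin 2) L 1) = Polynomial.X + 1 ∧
      sub1 L (hsymm (Fin 2) L 2) = Polynomial.X ^ 2 + Polynomial.X + 1 := by
  refine ⟨?_, ?_, ?_⟩
  · rw [hsymm_zero, map_one]
  · rw [hsymm_one, Fin.sum_univ_two, map_add]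
    unfold sub1
    simp
  · have h : hsymm (Fin 2) L 2 = X 0 ^ 2 + X 0 * X 1 + X 1 ^ 2 := by
      ext w
      rw [coeff_hsymm, coeff_add, coeff_add]
      have f1 : (Finsupp.single 0 2 : Fin 2 →₀ ℕ) = ex ![2, 0] := by
        ext i
        fin_cases i <;> simp
      have f2 : (Finsupp.single 0 1 + Finsupp.single 1 1 : Fin 2 →₀ ℕ) = ex ![1, 1] := by
        ext i
        fin_cases i <;> simp
      have f3 : (Finsupp.single 1 2 : Fin 2 →₀ ℕ) = ex ![0, 2] := by
        ext i
        fin_cases i <;> simp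
      have e1 : (X 0 ^ 2 : MvPolynomial (Fin 2) L) = monomial (ex ![2, 0]) 1 := by
        rw [X_pow_eq_monomial, f1]
      have e2 : (X 0 * X 1 : MvPolynomial (Fin 2) L) = monomial (ex ![1, 1]) 1 := by
        unfold X
        rw [monomial_mul, one_mul, f2]
      have e3 : (X 1 ^ 2 : MvPolynomial (Fin 2) L) = monomial (ex ![0, 2]) 1 := by
        rw [X_pow_eq_monomial, f3]
      rw [e1, e2, e3, coeff_monomial, coeff_monomial, coeff_monomial, Fin.sum_univ_two]
      have hw : ∀ v : Fin 2 → ℕ, (ex v = w) ↔ (v 0 = w 0 ∧ v 1 = w 1) := by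
        intro v
        constructor
        · rintro rfl; exact ⟨rfl, rfl⟩
        · rintro ⟨h0, h1⟩
          ext i
          fin_cases i
          · exact h0
          · exact h1
      simp only [hw, Matrix.cons_val_zero, Matrix.cons_val_one]
      by_cases hs : w 0 + w 1 = 2
      · rw [if_pos hs]
        have : w 0 = 0 ∨ w 0 = 1 ∨ w 0 = 2 := by omega
        rcases this with h0 | h0 | h0
        · have h1 : w 1 = 2 := by omega
          simp [h0, h1]
        · have h1 : w 1 = 1 := by omega
          simp [h0, h1]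
        · have h1 : w 1 = 0 := by omega
          simp [h0, h1]
      · rw [if_neg hs, if_neg (by omega), if_neg (by omega), if_neg (by omega)]
        simp
    rw [h, map_add, map_add, map_mul, map_pow, map_pow]
    unfold sub1
    simp

theorem conjPart_two (l : Fin 2 → ℕ) (hl : Antitone l) (j : ℕ) :
    conjPart l j = if j ≤ l 1 then 2 else if j ≤ l 0 then 1 else 0 := by
  have h10 : l 1 ≤ l 0 := hl (by decide : (0 : Fin 2) ≤ 1)
  have h0 := le_iff_conjPart l hl 0 j
  have h1 := le_iff_conjPart l hl 1 j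
  have h2 := conjPart_le l j
  simp only [Fin.val_zero, Fin.val_one] at h0 h1
  split_ifs with ha hb
  · have := h1.mp ha
    omega
  · have := h0.mp hb
    have : ¬ (1 + 1 ≤ conjPart l j) := fun h => ha (h1.mpr h)
    omega
  · have : ¬ (0 + 1 ≤ conjPart l j) := fun h => hb (h0.mpr h)
    omega

theorem sub1_hConj (L : Type) [Field L] (l : Box 2 m) :
    sub1 L (hConj 2 m L l.1) =
      (Polynomial.X ^ 2 + Polynomial.X + 1) ^ (l.1 1) * (Polynomial.X + 1) ^ (l.1 0 - l.1 1) := by
  unfold hConj
  rw [map_prod]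
  have h10 : l.1 1 ≤ l.1 0 := l.2.1 (by decide : (0 : Fin 2) ≤ 1)
  have hm := l.2.2 0
  obtain ⟨s0, s1, s2⟩ := sub1_hsymm L
  have hval : ∀ j ∈ Icc 1 m, sub1 L (hsymm (Fin 2) L (conjPart l.1 j)) =
      (if j ≤ l.1 1 then (Polynomial.X ^ 2 + Polynomial.X + 1) else 1) *
        (if l.1 1 < j ∧ j ≤ l.1 0 then (Polynomial.X + 1) else 1) := by
    intro j _
    rw [conjPart_two l.1 l.2.1]
    by_cases ha : j ≤ l.1 1
    · rw [if_pos ha, if_pos ha, if_neg (by omega), mul_one, s2]
    · rw [if_neg ha, if_neg ha, one_mul]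
      by_cases hb : j ≤ l.1 0
      · rw [if_pos hb, if_pos (by omega), s1]
      · rw [if_neg hb, if_neg (by omega), s0]
  rw [Finset.prod_congr rfl hval, Finset.prod_mul_distrib, Finset.prod_ite, Finset.prod_ite]
  simp only [Finset.prod_const, one_pow, mul_one]
  congr 2
  · have : (Icc 1 m).filter (fun j => j ≤ l.1 1) = Icc 1 (l.1 1) := by
      ext j
      simp only [Finset.mem_filter, Finset.mem_Icc]
      omega
    rw [this, Nat.card_Icc]
    omega
  · have : (Icc 1 m).filter (fun j => l.1 1 < j ∧ j ≤ l.1 0) = Ioc (l.1 1) (l.1 0) := by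
      ext j
      simp only [Finset.mem_filter, Finset.mem_Icc, Finset.mem_Ioc]
      omega
    rw [this, Nat.card_Ioc]

theorem sub1_coeff (L : Type) [Field L] (f : MvPolynomial (Fin 2) L) (d : ℕ)
    (hf : ∀ w : Fin 2 →₀ ℕ, coeff w f ≠ 0 → w 0 + w 1 = d) (j : ℕ) (hj : j ≤ d) :
    (sub1 L f).coeff j = coeff (ex ![j, d - j]) f := by
  conv_lhs => rw [f.as_sum]
  rw [map_sum, Polynomial.finsetSum_coeff]
  simp only [sub1_monomial, Polynomial.coeff_monomial]
  by_cases h : ex ![j, d - j] ∈ f.support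
  · rw [Finset.sum_eq_single (ex ![j, d - j])]
    · simp
    · intro w hw hne
      rw [if_neg]
      intro h0
      apply hne
      have h1 := hf w (mem_support_iff.mp hw)
      ext i
      fin_cases i
      · simpa using h0
      · simp only [Fin.mk_one, ex_apply, Matrix.cons_val_one]
        simp
        omega
    · intro h'
      exact absurd h h'
  · rw [notMem_support_iff.mp h]
    refine Finset.sum_eq_zero fun w hw => ?_
    rw [if_neg]
    intro h0
    apply h
    have h1 := hf w (mem_support_iff.mp hw)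
    have : w = ex ![j, d - j] := by
      ext i
      fin_cases i
      · simpa using h0
      · simp only [Fin.mk_one, ex_apply, Matrix.cons_val_one]
        simp
        omega
    rwa [← this]

end Pool.Agent.Lib.MP_c1a8e2_al
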